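import Pool.Agent.MP_3ee8cb_gt.DN.Spec2

/-! Rigidity of pinched metrics among all metrics: definitions and statements of the blocks. -/

namespace Pool.Agent.MP_3ee8cb_gt.DZ

open DN (Dim dm)

variable [Dim]

open Set Filter Topology MeasureTheory Real DN
open CR (Met UT Riem Deck RP dd ng tm FdP MinP bus)
open LV (QP CJ Fund vol)
open scoped RealInnerProductSpace

noncomputable section

/-! ### The measure on directions -/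

/-- The direction of a vector. -/
def un (w : V) : V := ‖w‖⁻¹ • w

/-- The shell. -/
def Sh : Set V := {w | 1 ≤ ‖w‖ ∧ ‖w‖ ≤ 2}

/-- Normalised measure on the shell. -/
def mS : Measure V := ((dm : ENNReal) / volume Sh) • volume.restrict Sh

structure MS : Prop where
  fin : IsFiniteMeasure mS
  mass : mS.real univ = dm
  mem : ∀ᵐ w ∂mS, w ∈ Sh
  ac : mS ≪ volume
  rot : ∀ O : V ≃ₗᵢ[ℝ] V, MeasurePreserving O mS mS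
  iso : ∀ a b : V, ∫ w, ⟪un w, a⟫ * ⟪un w, b⟫ ∂mS = ⟪a, b⟫
  den : ∀ A : Set V, IsClosed A → (∀ᵐ w ∂mS, un w ∈ A) → ∀ u, ‖u‖ = 1 → u ∈ A

def SMS : Prop := MS

/-- `h` is touched from below at `t` by a function with derivative `d`. -/
def Tou (h : ℝ → ℝ) (t d : ℝ) : Prop :=
  ∃ Φ : ℝ → ℝ, HasDerivAt Φ d t ∧ Φ t = h t ∧ ∀ᶠ s in 𝓝 t, Φ s ≤ h s

def SDINI : Prop := ∀ (h : ℝ → ℝ) (a b k : ℝ), a ≤ b → ContinuousOn h (Icc a b) →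
  ((∀ t ∈ Icc a b, ∃ d, Tou h t d ∧ k ≤ d) → k * (b - a) ≤ h b - h a) ∧
    ((∀ t ∈ Icc a b, ∃ d, Tou h t d ∧ d ≤ k) → h b - h a ≤ k * (b - a))

/-! ### Busemann functions in frames -/

/-- The negatively curved space. -/
structure YW (m : MF) (lg : V × V → V) : Prop where
  ok : m.OK
  jac : m.Jac
  had : m.Had lg
  up : m.Up 0

/-- The other space. -/
structure XW (m : MF) (dX : V → V → ℝ) : Prop where
  ok : m.OK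
  self : ∀ x, dX x x = 0
  nonneg : ∀ x y, 0 ≤ dX x y
  upp : ∀ (x : V) (ε : ℝ), 0 < ε → ∀ᶠ q : V × V in 𝓝 (x, x),
    dX q.1 q.2 ≤ (1 + ε) * ‖m.S x (q.2 - q.1)‖

/-- `b` is a Busemann function and `ν` points to its centre. -/
structure IsB (m : MF) (lg : V × V → V) (b : V → ℝ) (ν : V → V) : Prop where
  unit : ∀ y, ‖ν y‖ = 1
  ray : ∀ y t, b (m.Z t (y, ν y)).1 = b y - t
  lb : ∀ (y v : V) (L : ℝ), ‖v‖ = 1 →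
    exp (b y) * (cosh L - ⟪ν y, v⟫ * sinh L) ≤ exp (b (m.Z L (y, v)).1)
  lip : ∀ y y', b y - b y' ≤ ‖lg (y, y')‖

/-- Consequences. -/
structure B1 (m : MF) (lg : V × V → V) (b : V → ℝ) (ν : V → V) : Prop where
  der : ∀ y, HasFDerivAt b (-(innerSL ℝ (ν y)).comp (m.S y)) y
  eq : ∀ y v, ‖v‖ = 1 → b (m.Z 1 (y, v)).1 ≤ b y - 1 → ν y = v
  par : ∀ y t, ν (m.Z t (y, ν y)).1 = (m.Z t (y, ν y)).2
  dir : ∀ y y', Tendsto (fun T => un (lg (y', (m.Z T (y, ν y)).1))) atTop (𝓝 (ν y'))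
  lim : ∀ y y', Tendsto (fun T => ‖lg (y', (m.Z T (y, ν y)).1)‖ - T) atTop (𝓝 (b y' - b y))
  cvx : ∀ (z : V × V) (L t : ℝ), ‖z.2‖ = 1 → 0 ≤ t → t ≤ L → exp (b (m.Z t z).1) * sinh L ≤
    sinh (L - t) * exp (b z.1) + sinh t * exp (b (m.Z L z).1)
  sub : ∀ (z : V × V) (R : ℝ), b z.1 ≤ R → b (m.Z 1 z).1 ≤ R →
    ∀ t ∈ Icc (0 : ℝ) 1, b (m.Z t z).1 ≤ R

def SB1 : Prop := ∀ m lg b ν, YW m lg → IsB m lg b ν → B1 m lg b ν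

/-- The two point function. -/
def gp (m : MF) (b : V → ℝ) (q : V × V) : ℝ := exp (b (m.Z (-1) q).1) - exp (b (m.Z 1 q).1)

/-- The horizontal derivative of the two point function. -/
def HH (m : MF) (k : ℝ) (b : V → ℝ) (ν : V → V) : Prop := ∀ z w : V, ‖w‖ = 1 →
  ∃ (D : V × V →L[ℝ] ℝ) (c : ℝ) (ζ : V), HasFDerivAt (gp m b) D (z, w) ∧ ⟪ζ, w⟫ = 0 ∧
    (∀ ξ, m.ver (z, w) ξ = 0 → D ξ = -⟪c • w + ζ, m.hor (z, w) ξ⟫) ∧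
    2 * sinh 1 * exp (b z) * (1 - ⟪ν z, w⟫) ≤ c - gp m b (z, w) ∧
    ‖ζ‖ ^ 2 ≤ (k * exp (b z)) ^ 2 * (1 - ⟪ν z, w⟫ ^ 2)

def SH : Prop := ∃ K : ℝ, 0 ≤ K ∧ ∀ (δ : ℝ) m lg b ν, 0 ≤ δ → δ ≤ 1 → YW m lg → m.Up 1 →
  m.Dn (1 + δ) → IsB m lg b ν → B1 m lg b ν → HH m (K * δ) b ν

/-! ### Families -/

/-- The data of a family: base point, foot, flip, function, direction. -/
structure Fam (P : Type) where
  pr : P → V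
  ft : P → V
  fl : P → P
  β : P → V → ℝ
  ν : P → V → V

structure BF (m : MF) (lg : V × V → V) (dX : V → V → ℝ) {P : Type} [TopologicalSpace P]
    (A : Fam P) : Prop where
  yw : YW m lg
  self : ∀ x, dX x x = 0
  isb : ∀ p, IsB m lg (A.β p) (A.ν p)
  b1 : ∀ p, B1 m lg (A.β p) (A.ν p)
  cont : Continuous fun q : P × V => A.β q.1 q.2
  cpt : ∀ x, IsCompact {p | A.pr p = x}
  foot : ∀ p, A.β p (A.ft p) = 0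
  flp : ∀ p, A.pr (A.fl p) = A.pr p ∧ A.ft (A.fl p) = A.ft p ∧
    A.ν (A.fl p) (A.ft p) = -A.ν p (A.ft p)
  sur : ∀ z w, ‖w‖ = 1 → ∃ p, A.ft p = z ∧ A.ν p z = w
  mov : ∀ p x, ∃ p' k, A.pr p' = x ∧ ∀ z, A.β p' z = A.β p z + k
  lip : ∀ p p' k, (∀ z, A.β p' z = A.β p z + k) → |k| ≤ dX (A.pr p) (A.pr p')
  gr : ∀ p q, A.pr p = A.pr q → ∀ e, 0 < e → ∀ᶠ T in atTop,
    A.β p (m.Z T (A.ft q, A.ν q (A.ft q))).1 ≤ T + e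

/-- The set where all functions over `x` are at most `R`. -/
def Fam.C {P : Type} (A : Fam P) (R : ℝ) (x : V) : Set V := {z | ∀ p, A.pr p = x → A.β p z ≤ R}

/-- The support function. -/
def Fam.u {P : Type} (A : Fam P) (m : MF) (x z w : V) : ℝ :=
  log (sSup ((fun p => gp m (A.β p) (z, w)) '' {p | A.pr p = x}))

/-- The maximum is attained in the direction `w`. -/
def Fam.T {P : Type} (A : Fam P) (m : MF) (x z w : V) : Prop := ∃ p, A.pr p = x ∧ A.ν p z = w ∧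
  ∀ p', A.pr p' = x → gp m (A.β p') (z, w) ≤ gp m (A.β p) (z, w)

/-- Consequences. -/
structure BG (lg : V × V → V) {P : Type} (A : Fam P) : Prop where
  opp : ∀ p z, 0 ≤ A.β p z + A.β (A.fl p) z
  two : ∀ p q, A.pr p = A.pr q → A.β p (A.ft q) ≤ log 2
  onto : ∀ x z w, ‖w‖ = 1 → ∃ p, A.pr p = x ∧ A.ν p z = w
  same : ∀ p p' z, A.pr p = A.pr p' → A.ν p z = A.ν p' z → A.β p z = A.β p' z
  near : ∀ p z R, z ∈ A.C R (A.pr p) → ‖lg (A.ft p, z)‖ ≤ R + 1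

/-- A statement about a family. -/
def OnB (Q : ∀ (_ : MF) (_ : V × V → V) (_ : V → V → ℝ) (P : Type) [TopologicalSpace P]
    (_ : Fam P), Prop) : Prop :=
  ∀ (m : MF) (lg : V × V → V) (dX : V → V → ℝ) (P : Type) [TopologicalSpace P] (A : Fam P),
    BF m lg dX A → Q m lg dX P A

def SBG : Prop := OnB fun _ lg _ _ _ A => BG lg A

/-- An abstract support function. -/
structure Sup (m : MF) (lg : V × V → V) (dX : V → V → ℝ) (ε : ℝ) (u : V → V → V → ℝ)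
    (C C₀ : V → Set V) (Q : V → V → V → Prop) : Prop where
  lipx : ∀ x x' z w, ‖w‖ = 1 → |u x z w - u x' z w| ≤ dX x x'
  lipz : ∀ (x₀ : V) (R : ℝ), ∃ K, ∀ x, dX x₀ x ≤ 1 →
    LipschitzOnWith K (fun q : V × V => u x q.1 q.2) {q | ‖q.1‖ ≤ R ∧ ‖q.2‖ = 1}
  tou : ∀ x z w, z ∈ C x → ‖w‖ = 1 → ∃ (Φ : V × V → ℝ) (D : V × V →L[ℝ] ℝ) (c : ℝ) (ζ : V),
    HasFDerivAt Φ D (z, w) ∧ Φ (z, w) = u x z w ∧
    (∀ᶠ q in 𝓝 (z, w), ‖q.2‖ = 1 → Φ q ≤ u x q.1 q.2) ∧ 1 ≤ c ∧ ⟪ζ, w⟫ = 0 ∧ ‖ζ‖ ≤ ε ∧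
    ‖ζ‖ ^ 2 ≤ ε ^ 2 * (c - 1) ∧ (c = 1 → Q x z w) ∧
    ∀ ξ, m.ver (z, w) ξ = 0 → D ξ = -⟪c • w + ζ, m.hor (z, w) ξ⟫
  cvx : ∀ x (z : V × V), z.1 ∈ C x → (m.Z 1 z).1 ∈ C x → ∀ t ∈ Icc (0 : ℝ) 1, (m.Z t z).1 ∈ C x
  nest : ∀ x x', dX x x' ≤ 1 → C₀ x' ⊆ C x
  ctr : ∀ x, ∃ y, (∀ w, ‖w‖ = 1 → |u x y w| ≤ 2) ∧ ∀ z, ‖lg (y, z)‖ ≤ 8 * dm + 1 → z ∈ C₀ x

def SSUP : Prop := ∃ K : ℝ, 0 ≤ K ∧ OnB fun m lg dX _ _ A => BG lg A → ∀ k, 0 ≤ k →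
  (∀ p, HH m k (A.β p) (A.ν p)) →
    Sup m lg dX (K * k) (A.u m) (A.C (8 * dm + 3)) (A.C (8 * dm + 2)) (A.T m)

/-! ### The zero of the averaged field -/

/-- The averaged field. -/
def VV (u : V → V → V → ℝ) (x z : V) : V := ∫ w, u x z (un w) • un w ∂mS

structure Zr (lg : V × V → V) (dX : V → V → ℝ) (u : V → V → V → ℝ) (C C₀ : V → Set V)
    (f : V → V) : Prop where
  mem : ∀ x, f x ∈ C₀ x
  zero : ∀ x, VV u x (f x) = 0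
  uniq : ∀ x z, z ∈ C x → VV u x z = 0 → z = f x
  lip : ∀ x x', dX x x' ≤ 1 → ‖lg (f x, f x')‖ ≤ 2 * dm * dX x x'

/-- A statement about a support function. -/
def OnS (R : MF → MF → (V × V → V) → (V → V → ℝ) → ℝ → (V → V → V → ℝ) → (V → Set V) →
    (V → Set V) → (V → V → V → Prop) → Prop) : Prop :=
  ∀ m₀ m lg dX (ε : ℝ) u C C₀ Q, MS → XW m₀ dX → YW m lg → 0 ≤ ε → 2 * dm * ε ≤ 1 →
    Sup m lg dX ε u C C₀ Q → R m₀ m lg dX ε u C C₀ Q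

def SZERO : Prop := SDINI → OnS fun _ _ lg dX _ u C C₀ _ => ∃ f, Zr lg dX u C C₀ f

def SFL : Prop := OnS fun _ _ lg dX _ u C C₀ _ => ∀ f, Zr lg dX u C C₀ f → LocallyLipschitz f

/-! ### The Jacobian -/

/-- The derivative in frames. -/
def LL (m₀ m : MF) (f : V → V) (x : V) : V →L[ℝ] V :=
  ((m.S (f x)).comp (fderiv ℝ f x)).comp (m₀.R x)

/-- First order data at a point. -/
def Fo (ε : ℝ) (L : V →L[ℝ] V) (Q : V → Prop) : Prop := ∃ l : V → V →L[ℝ] ℝ,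
  (∀ T : V →L[ℝ] V, Integrable (fun w => l w (T (un w))) mS ∧ ∫ w, l w (T (un w)) ∂mS = 0) ∧
  ∀ᵐ w ∂mS, ∃ (c : ℝ) (ζ : V), 1 ≤ c ∧ ⟪ζ, un w⟫ = 0 ∧ ‖ζ‖ ^ 2 ≤ ε ^ 2 * (c - 1) ∧
    (c = 1 → Q (un w)) ∧ ∀ e, l w e ≤ ‖e‖ - ⟪c • un w + ζ, L e⟫

def SJA : Prop := OnS fun m₀ m lg dX ε u C C₀ Q => ∀ f, Zr lg dX u C C₀ f → LocallyLipschitz f →
  ∀ᵐ x, DifferentiableAt ℝ f x ∧ Fo ε (LL m₀ m f x) (Q x (f x))

def SJB : Prop := ∀ (ε : ℝ) (L : V →L[ℝ] V) (Q : V → Prop), MS → 0 ≤ ε → 2 * dm * ε ≤ 1 →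
  Fo ε L Q → |L.det| ≤ 1 ∧ (1 ≤ |L.det| → ∀ᵐ w ∂mS, Q (un w))

def SEND1 : Prop := SDINI → OnB fun m lg _ _ _ A => MS → BG lg A → ∀ x z,
  (∀ᵐ w ∂mS, A.T m x z (un w)) → ∀ p, A.pr p = x → A.ft p = z

/-! ### The world of metrics -/

def SXW : Prop := On1 fun g C _ _ _ Φ => ∀ m : MF, m.OK → Lk g C Φ m → XW m (dd g)

/-- An asymptote passes through every point. -/
def Asy (h : Met dm) (Ψ : ℝ → UT h → UT h) : Prop := ∀ (w : UT h) (y : V), ∃ u : UT h,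
  u.1.1 = y ∧ Tendsto (fun t => dd h (Ψ t u).1.1 (Ψ (t - bus h Ψ w y) w).1.1) atTop (𝓝 0)

def SASY : Prop := On1 fun h _ _ _ _ Ψ => TB.CurvLe h 1 → Asy h Ψ

def SBC : Prop := On1 fun h _ _ _ _ Ψ => TB.CurvLe h 1 →
  Continuous fun q : UT h × V => bus h Ψ q.1 q.2

def SEXA : Prop := On1 fun h C _ _ _ Ψ => ∀ m lg, TB.CurvLe h 1 → Asy h Ψ → YW m lg →
  Lk h C Ψ m → (∀ y z, ‖lg (y, z)‖ = dd h y z) → ∃ ν : UT h → V → V, ∀ w,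
    IsB m lg (bus h Ψ w) (ν w) ∧ ν w w.1.1 = m.S w.1.1 w.1.2

/-- All facts on the negatively curved side. -/
structure NB (h : Met dm) (C : TB.Chr dm) (Ψ : ℝ → UT h → UT h) (m : MF) (lg : V × V → V)
    (ν : UT h → V → V) : Prop where
  cv : TB.CurvLe h 1
  yw : YW m lg
  lk : Lk h C Ψ m
  dist : ∀ y z, ‖lg (y, z)‖ = dd h y z
  asy : Asy h Ψ
  cont : Continuous fun q : UT h × V => bus h Ψ q.1 q.2
  isb : ∀ w, IsB m lg (bus h Ψ w) (ν w)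
  b1 : ∀ w, B1 m lg (bus h Ψ w) (ν w)
  foot : ∀ w, ν w w.1.1 = m.S w.1.1 w.1.2

def SMOV : Prop := On2 fun _ h _ C' _ _ _ _ _ _ _ Ψ _ F => ∀ m lg ν, NB h C' Ψ m lg ν →
  ∀ p x, ∃ p' k, p'.1.1 = x ∧ ∀ z, bus h Ψ (F p') z = bus h Ψ (F p) z + k

def SLIP : Prop := On2 fun g h _ C' _ _ _ _ _ _ _ Ψ _ F => ∀ m lg ν, NB h C' Ψ m lg ν →
  ∀ p p' k, (∀ z, bus h Ψ (F p') z = bus h Ψ (F p) z + k) → |k| ≤ dd g p.1.1 p'.1.1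

def SGR : Prop := On2 fun _ h _ C' _ _ _ _ _ _ _ Ψ _ F => ∀ m lg ν, NB h C' Ψ m lg ν →
  (∀ p, F (ng p) = ng (F p)) → ∀ p q, p.1.1 = q.1.1 → ∀ e, 0 < e → ∀ᶠ T in atTop,
    bus h Ψ (F p) (Ψ T (F q)).1.1 ≤ T + e

/-- The family of a conjugacy. -/
def fam {g h : Met dm} (Ψ : ℝ → UT h → UT h) (F : UT g ≃ₜ UT h) (ν : UT h → V → V) :
    Fam (UT g) :=
  ⟨fun p => p.1.1, fun p => (F p).1.1, ng, fun p => bus h Ψ (F p), fun p => ν (F p)⟩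

def SBF : Prop := SMOV → SLIP → SGR → On2 fun g h _ C' _ _ _ _ _ _ _ Ψ _ F => ∀ m lg ν,
  NB h C' Ψ m lg ν → (∀ p, F (ng p) = ng (F p)) → BF m lg (dd g) (fam Ψ F ν)

def SEQV : Prop := On2 fun g h _ C' Γ Λ _ _ _ _ _ Ψ ρ F => ∀ m lg ν O R R₀ f, MS →
  NB h C' Ψ m lg ν → Act m Λ O → R₀ ≤ R →
  Zr lg (dd g) ((fam Ψ F ν).u m) ((fam Ψ F ν).C R) ((fam Ψ F ν).C R₀) f →
    ∀ (γ : Γ) x, f (γ • x) = ρ γ • f x

def SONTO : Prop := On2 fun _ h _ C' _ _ _ _ _ _ _ Ψ _ F => ∀ m lg ν (f : V → V) (c : ℝ),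
  NB h C' Ψ m lg ν → Continuous f → (∀ p, ‖lg ((F p).1.1, f p.1.1)‖ ≤ c) → Function.Surjective f

def SVEQ : Prop := On2 fun g h _ _ Γ Λ _ _ _ _ _ _ _ _ => TB.CurvLe h 1 → ∀ D D', Fund Γ D →
  Fund Λ D' → vol g D = vol h D'

/-- The area inequality with a weight. -/
def SAREA : Prop := ∀ (f : V → V) (r : V → ENNReal) (D : Set V), LocallyLipschitz f →
  Measurable r → MeasurableSet D →
    ∫⁻ y in f '' D, r y ≤ ∫⁻ x in D, r (f x) * ENNReal.ofReal |(fderiv ℝ f x).det|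

def SVOL : Prop := SVEQ → SAREA → On2 fun g h C C' Γ _ _ _ _ _ Φ Ψ ρ _ =>
  ∀ (m₀ m : MF) (f : V → V), TB.CurvLe h 1 → m₀.OK → m.OK → Lk g C Φ m₀ → Lk h C' Ψ m →
    LocallyLipschitz f → Function.Surjective f → (∀ (γ : Γ) x, f (γ • x) = ρ γ • f x) →
    (∀ᵐ x, |(LL m₀ m f x).det| ≤ 1) → ∀ᵐ x, 1 ≤ |(LL m₀ m f x).det|

def SEND2 : Prop := On2 fun g h C C' _ _ _ _ _ _ Φ Ψ ρ F => ∀ m₀ m lg ν (f : V → V), m₀.OK →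
  m₀.Jac → Lk g C Φ m₀ → NB h C' Ψ m lg ν → Continuous f →
  (∀ᵐ x, DifferentiableAt ℝ f x ∧ ∀ p : UT g, p.1.1 = x → (F p).1.1 = f x) → Iso g h ρ

/-! ### The theorem -/

def Main1 (δ : ℝ) : Prop := On2 fun g h _ C' _ _ _ _ _ _ _ _ ρ _ =>
  Pin h C' 1 (1 + δ) → Iso g h ρ

/-- Rigidity under a continuous conjugacy. -/
def MainZ (δ : ℝ) : Prop := On2 fun g h _ C' _ _ _ _ _ _ _ _ ρ _ => ∀ a hi, 0 < a →
  hi ≤ (1 + δ) * a ^ 2 → Pin h C' (a ^ 2) hi → Iso g h ρ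

def SSCL : Prop := ∀ δ, Main1 δ → MainZ δ

end

end Pool.Agent.MP_3ee8cb_gt.DZ
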