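import Pool.Agent.MP_3ee8cb_gt.DZ.Spec
import Pool.Agent.MP_3ee8cb_gt.DNWI.Base

/-! Consequences of the axioms of a Busemann function. -/

namespace Pool.Agent.MP_3ee8cb_gt.DZ

open DN (Dim dm)

variable [Dim]

open Set Filter Topology Real DN Asymptotics
open DNWI (lg_ray lg_geo lg_symm lg_self)
open scoped RealInnerProductSpace

namespace RB1

variable {m : MF} {lg : V × V → V} {b : V → ℝ} {ν : V → V}

/-- The derivative of half the squared distance to a point. -/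
theorem dsq (hd : m.Had lg) (y q : V) : HasFDerivAt (fun x => ‖lg (x, q)‖ ^ 2 / 2)
    (-(innerSL ℝ (lg (y, q))).comp (m.S y)) y := by
  have d1 : DifferentiableAt ℝ (fun z => ‖lg z‖ ^ 2 / 2) (y, q) := by
    simp only [div_eq_mul_inv]
    exact ((hd.c1.differentiable one_ne_zero _).norm_sq ℝ).mul_const _
  have d2 := HasFDerivAt.comp (f := fun e : V => (e, q)) y d1.hasFDerivAt
    (hasFDerivAt_prodMk_left (𝕜 := ℝ) y q)
  refine d2.congr_fderiv (ContinuousLinearMap.ext fun u => ?_)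
  change fderiv ℝ (fun z => ‖lg z‖ ^ 2 / 2) (y, q) (u, 0) = -⟪lg (y, q), m.S y u⟫
  rw [hd.grad]
  simp

theorem der (Y : YW m lg) (B : IsB m lg b ν) (y : V) :
    HasFDerivAt b (-(innerSL ℝ (ν y)).comp (m.S y)) y := by
  have e1 : lg (y, (m.Z 1 (y, ν y)).1) = ν y := by
    have := lg_ray Y.jac Y.had 1 (y, ν y)
    rwa [one_smul] at this
  have e2 : lg (y, (m.Z (-1) (y, ν y)).1) = -ν y := by
    have := lg_ray Y.jac Y.had (-1) (y, ν y)
    rwa [neg_one_smul] at this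
  have d1 := dsq Y.had y (m.Z 1 (y, ν y)).1
  have d2 := (dsq Y.had y (m.Z (-1) (y, ν y)).1).neg
  rw [e2, map_neg, ContinuousLinearMap.neg_comp, neg_neg] at d2
  rw [e1] at d1
  rw [hasFDerivAt_iff_isLittleO] at d1 d2 ⊢
  refine (IsBigO.of_bound 1 (Eventually.of_forall fun x => ?_)).trans_isLittleO
    (d1.norm_left.add d2.norm_left)
  have l1 := B.lip x (m.Z 1 (y, ν y)).1
  have l2 := B.lip (m.Z (-1) (y, ν y)).1 x
  rw [B.ray] at l1 l2
  rw [← lg_symm Y.jac Y.had] at l2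
  simp only [Pi.neg_apply, e1, e2, norm_neg, B.unit y, Real.norm_eq_abs]
  generalize (-(innerSL ℝ (ν y)).comp (m.S y)) (x - y) = k
  generalize ‖lg (x, (m.Z 1 (y, ν y)).1)‖ = r at l1 ⊢
  generalize ‖lg (x, (m.Z (-1) (y, ν y)).1)‖ = s at l2 ⊢
  have a1 := le_abs_self (r ^ 2 / 2 - 1 ^ 2 / 2 - k)
  have a2 := neg_abs_le (-(s ^ 2 / 2) - -(1 ^ 2 / 2) - k)
  have a3 := abs_nonneg (r ^ 2 / 2 - 1 ^ 2 / 2 - k)
  have a4 := abs_nonneg (-(s ^ 2 / 2) - -(1 ^ 2 / 2) - k)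
  rw [one_mul, abs_of_nonneg (add_nonneg a3 a4)]
  exact abs_le.2 ⟨by nlinarith [sq_nonneg (s - 1)], by nlinarith [sq_nonneg (r - 1)]⟩

theorem ang (B : IsB m lg b ν) (y v : V) (L : ℝ) (hv : ‖v‖ = 1) :
    ‖v - ν y‖ ^ 2 * sinh L ≤ 2 * (exp (b (m.Z L (y, v)).1 - b y) - exp (-L)) := by
  have h1 := B.lb y v L hv
  have h2 := cosh_sub_sinh L
  have h3 : cosh L - ⟪ν y, v⟫ * sinh L ≤ exp (b (m.Z L (y, v)).1 - b y) := by
    rw [exp_sub, le_div_iff₀ (exp_pos _), mul_comm]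
    exact h1
  rw [norm_sub_sq_real, hv, B.unit, real_inner_comm]
  linarith

theorem eq (B : IsB m lg b ν) (y v : V) (hv : ‖v‖ = 1) (h : b (m.Z 1 (y, v)).1 ≤ b y - 1) :
    ν y = v := by
  have h1 := ang B y v 1 hv
  have h2 : exp (b (m.Z 1 (y, v)).1 - b y) ≤ exp (-1) := exp_le_exp.2 (by linarith)
  have h3 : 0 < sinh (1 : ℝ) := sinh_pos_iff.2 one_pos
  have h4 : ‖v - ν y‖ ^ 2 ≤ 0 := by
    by_contra k
    nlinarith [mul_pos (not_le.1 k) h3]
  exact (sub_eq_zero.1 (norm_eq_zero.1 (pow_eq_zero_iff two_ne_zero |>.1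
    (le_antisymm h4 (sq_nonneg _))))).symm

/-- The direction to a far point of a ray is close to the direction field. -/
theorem close (Y : YW m lg) (B : IsB m lg b ν) (y x : V) {T D : ℝ} (hD : b y - b x ≤ D)
    (hT : D + 1 ≤ T) : 1 ≤ ‖lg (x, (m.Z T (y, ν y)).1)‖ ∧
      ‖un (lg (x, (m.Z T (y, ν y)).1)) - ν x‖ ≤ √(2 * exp (D - T)) := by
  have h0 := B.lip x (m.Z T (y, ν y)).1
  have r := B.ray y T
  generalize (m.Z T (y, ν y)).1 = q at h0 r ⊢
  have h1 : 1 ≤ ‖lg (x, q)‖ := by linarith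
  have hn : ‖lg (x, q)‖ ≠ 0 := by linarith
  have hu : ‖un (lg (x, q))‖ = 1 := by
    rw [un, norm_smul, norm_inv, norm_norm, inv_mul_cancel₀ hn]
  have h2 := ang B x _ ‖lg (x, q)‖ hu
  have e : (m.Z ‖lg (x, q)‖ (x, un (lg (x, q)))).1 = q := by
    rw [un, Y.jac.scale, inv_mul_cancel₀ hn]
    exact Y.had.ex x q
  rw [e] at h2
  have h3 : exp (b q - b x) ≤ exp (D - T) := exp_le_exp.2 (by linarith)
  have h4 : ‖lg (x, q)‖ ≤ sinh ‖lg (x, q)‖ := self_le_sinh_iff.2 (norm_nonneg _)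
  refine ⟨h1, le_sqrt_of_sq_le ?_⟩
  nlinarith [exp_pos (-‖lg (x, q)‖), mul_le_mul_of_nonneg_left (h1.trans h4)
    (sq_nonneg ‖un (lg (x, q)) - ν x‖)]

omit [Dim] in
theorem small (D : ℝ) : Tendsto (fun T : ℝ => √(2 * exp (D - T))) atTop (𝓝 0) := by
  have h1 : Tendsto (fun T : ℝ => exp (D - T)) atTop (𝓝 0) :=
    tendsto_exp_atBot.comp (tendsto_atBot_add_const_left _ D tendsto_neg_atTop_atBot)
  simpa using (h1.const_mul 2).sqrt

theorem lim (Y : YW m lg) (B : IsB m lg b ν) (y y' : V) :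
    Tendsto (fun T => ‖lg (y', (m.Z T (y, ν y)).1)‖ - T) atTop (𝓝 (b y' - b y)) := by
  obtain ⟨a, ha⟩ : ∃ a, lg (y, y') = a := ⟨_, rfl⟩
  have g1 : (m.Z 1 (y, a)).1 = y' := by rw [← ha]; exact Y.had.ex y y'
  have g0 : (m.Z 0 (y, a)).1 = y := by rw [Y.ok.zero]
  rw [tendsto_iff_norm_sub_tendsto_zero]
  have sm := (small ‖a‖).mul_const ‖a‖
  rw [zero_mul] at sm
  refine squeeze_zero' (Eventually.of_forall fun T => norm_nonneg _) ?_ sm
  filter_upwards [eventually_ge_atTop (‖a‖ + 1)] with T hT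
  have e0 : ‖lg (y, (m.Z T (y, ν y)).1)‖ = T := by
    have := lg_ray Y.jac Y.had T (y, ν y)
    rw [this, norm_smul, B.unit, mul_one, Real.norm_of_nonneg (by linarith [norm_nonneg a])]
  have cl := fun x h => close Y B y x (D := ‖a‖) h hT
  generalize (m.Z T (y, ν y)).1 = q at e0 cl ⊢
  have key : ∀ t ∈ Icc (0 : ℝ) 1, ∃ d, ‖d‖ ≤ √(2 * exp (‖a‖ - T)) * ‖a‖ ∧ HasDerivAt
      (fun s => ‖lg ((m.Z s (y, a)).1, q)‖ - b (m.Z s (y, a)).1) d t := fun t ht => by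
    have l1 := B.lip y (m.Z t (y, a)).1
    have l2 := lg_ray Y.jac Y.had t (y, a)
    rw [l2, norm_smul, Real.norm_of_nonneg ht.1] at l1
    obtain ⟨c1, c2⟩ := cl (m.Z t (y, a)).1 (by nlinarith [ht.2, norm_nonneg a])
    have v : HasDerivAt (fun s => (m.Z s (y, a)).1)
        (m.R (m.Z t (y, a)).1 (m.Z t (y, a)).2) t := (Y.ok.ode (y, a) t).fst
    have d1 := ((dsq Y.had (m.Z t (y, a)).1 q).comp_hasDerivAt t v).const_mul 2
    have d2 := (der Y B (m.Z t (y, a)).1).comp_hasDerivAt t v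
    have d3 := d1.sqrt (by
      change 2 * (‖lg ((m.Z t (y, a)).1, q)‖ ^ 2 / 2) ≠ 0
      positivity)
    have e : ∀ r : ℝ, 0 ≤ r → √(2 * (r ^ 2 / 2)) = r := fun r hr => by
      rw [mul_div_cancel₀ _ two_ne_zero, sqrt_sq hr]
    simp only [Function.comp_def, e _ (norm_nonneg _)] at d3 d2
    refine ⟨_, ?_, d3.sub d2⟩
    have n2 : ‖(m.Z t (y, a)).2‖ = ‖a‖ := Y.jac.norm t (y, a)
    refine le_trans (le_of_eq ?_) (((abs_real_inner_le_norm (un (lg ((m.Z t (y, a)).1, q)) -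
      ν (m.Z t (y, a)).1) (m.Z t (y, a)).2).trans_eq (by rw [n2])).trans
        (mul_le_mul_of_nonneg_right c2 (norm_nonneg a)))
    rw [Real.norm_eq_abs, ← abs_neg, inner_sub_left, un, real_inner_smul_left]
    refine congrArg abs ?_
    simp only [neg_apply, ContinuousLinearMap.comp_apply, Y.ok.SR, innerSL_apply_apply]
    have : ‖lg ((m.Z t (y, a)).1, q)‖ ≠ 0 := by linarith
    field_simp
    ring
  choose! d k1 k2 using key
  have mv := norm_image_sub_le_of_norm_deriv_le_segment_01'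
    (fun t ht => (k2 t ht).hasDerivWithinAt) fun t ht => k1 t ⟨ht.1, ht.2.le⟩
  rw [g1, g0, e0] at mv
  refine le_trans (le_of_eq (congrArg _ ?_)) mv
  ring

theorem cvx (Y : YW m lg) (B : IsB m lg b ν) (z : V × V) (L t : ℝ) (hz : ‖z.2‖ = 1) (h0 : 0 ≤ t)
    (hL : t ≤ L) : exp (b (m.Z t z).1) * sinh L ≤
      sinh (L - t) * exp (b z.1) + sinh t * exp (b (m.Z L z).1) := by
  have hv : ‖(m.Z t z).2‖ = 1 := by rw [Y.jac.norm, hz]
  have h1 := B.lb (m.Z t z).1 (m.Z t z).2 (-t) hv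
  have h2 := B.lb (m.Z t z).1 (m.Z t z).2 (L - t) hv
  rw [Prod.mk.eta, ← Y.ok.add, neg_add_cancel, Y.ok.zero, cosh_neg, sinh_neg] at h1
  rw [Prod.mk.eta, ← Y.ok.add, sub_add_cancel] at h2
  have h3 := mul_le_mul_of_nonneg_left h1 (sinh_nonneg_iff.2 (sub_nonneg.2 hL))
  have h4 := mul_le_mul_of_nonneg_left h2 (sinh_nonneg_iff.2 h0)
  have h5 := sinh_add (L - t) t
  rw [sub_add_cancel] at h5
  rw [h5]
  nlinarith

end RB1

theorem b1 : SB1 := by
  intro m lg b ν Y B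
  refine ⟨RB1.der Y B, RB1.eq B, fun y t => ?_, fun y y' => ?_, RB1.lim Y B, RB1.cvx Y B,
    fun z R h0 h1 t ht => ?_⟩
  · refine RB1.eq B _ _ (by rw [Y.jac.norm, B.unit]) (le_of_eq ?_)
    rw [Prod.mk.eta, ← Y.ok.add, B.ray, B.ray]
    ring
  · rw [tendsto_iff_norm_sub_tendsto_zero]
    refine squeeze_zero' (Eventually.of_forall fun T => norm_nonneg _) ?_ (RB1.small (b y - b y'))
    filter_upwards [eventually_ge_atTop (b y - b y' + 1)] with T hT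
    exact (RB1.close Y B y y' le_rfl hT).2
  · by_cases hz : z.2 = 0
    · have e := Y.jac.scale t 0 z.1 z.2
      rw [zero_smul, zero_mul, Y.ok.zero, ← hz, Prod.mk.eta] at e
      rw [e]
      exact h0
    · have hn : 0 < ‖z.2‖ := norm_pos_iff.2 hz
      have e : ∀ s, (m.Z s z).1 = (m.Z (‖z.2‖ * s) (z.1, un z.2)).1 := fun s => by
        have k := Y.jac.scale s ‖z.2‖ z.1 (un z.2)
        rw [un, smul_smul, mul_inv_cancel₀ hn.ne', one_smul, Prod.mk.eta] at k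
        rw [k, un]
      have p0 : 0 ≤ ‖z.2‖ * t := mul_nonneg hn.le ht.1
      have p1 : ‖z.2‖ * t ≤ ‖z.2‖ * 1 := mul_le_mul_of_nonneg_left ht.2 hn.le
      have k := RB1.cvx Y B (z.1, un z.2) (‖z.2‖ * 1) (‖z.2‖ * t)
        (by rw [un, norm_smul, norm_inv, norm_norm, inv_mul_cancel₀ hn.ne']) p0 p1
      rw [← e, ← e] at k
      have s1 := sinh_nonneg_iff.2 (sub_nonneg.2 p1)
      have s2 := sinh_nonneg_iff.2 p0
      have s3 := sinh_add (‖z.2‖ * 1 - ‖z.2‖ * t) (‖z.2‖ * t)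
      rw [sub_add_cancel] at s3
      have s4 : 0 < sinh (‖z.2‖ * 1) := sinh_pos_iff.2 (by linarith)
      have m1 := mul_le_mul_of_nonneg_left (exp_le_exp.2 h0) s1
      have m2 := mul_le_mul_of_nonneg_left (exp_le_exp.2 h1) s2
      have m3 := mul_le_mul_of_nonneg_left (one_le_cosh (‖z.2‖ * t)) s1
      have m4 := mul_le_mul_of_nonneg_right (one_le_cosh (‖z.2‖ * 1 - ‖z.2‖ * t)) s2
      have m5 : sinh (‖z.2‖ * 1 - ‖z.2‖ * t) + sinh (‖z.2‖ * t) ≤ sinh (‖z.2‖ * 1) := by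
        linarith
      have m6 := mul_le_mul_of_nonneg_right m5 (exp_pos R).le
      refine exp_le_exp.1 (le_of_mul_le_mul_right ?_ s4)
      linarith

theorem sB1 : SB1 := b1

end Pool.Agent.MP_3ee8cb_gt.DZ
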