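import Pool.Agent.MP_3ee8cb_gt.DZ.Spec
import Pool.Agent.MP_3ee8cb_gt.DZV.Vol
import Pool.Agent.MP_3ee8cb_gt.DNAC.Act

/-! The volume step. -/

namespace Pool.Agent.MP_3ee8cb_gt.DZ

open DN (Dim dm)

variable [Dim]

open MeasureTheory DN

theorem RVOL.veq : SVEQ := by
  intro g h C C' Γ Λ _ _ _ _ Φ Ψ ρ F qg qh _ _ _ _ cj hc D D' hD hD'
  exact DZV.vol_cj (Nat.succ_pos _) qg qh cj one_pos hc hD hD'

theorem RVOL.area : SAREA := fun f r D hf hr hD => by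
  simpa only [mul_comm] using DZV.area_w volume hf hD hr

theorem sVOL : SVOL := by
  intro _ _ g h C C' Γ Λ _ _ _ _ Φ Ψ ρ F qg qh _ ch _ d2 cj m₀ m f hc o₀ o l₀ l hf su eqv jac
  obtain ⟨O, A⟩ := sACT h C' Λ Ψ qh ch m o l d2
  filter_upwards [DZV.vol_ae qg qh cj one_pos hc o₀ o l₀ l A hf eqv su jac] with x hx using hx.ge

end Pool.Agent.MP_3ee8cb_gt.DZ
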