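import Pool.Agent.MP_3ee8cb_gt.DZ.RMOV
import Pool.Agent.MP_3ee8cb_gt.DZ.RVOL
import Pool.Agent.MP_3ee8cb_gt.CR.REX

/-! The family of a conjugacy. -/

namespace Pool.Agent.MP_3ee8cb_gt.DZ

open DN (Dim dm)

variable [Dim]

open Filter DN
open CR (UT ng)

theorem sBF : SBF := by
  intro mov lip gr g h C C' Γ Λ _ _ _ _ Φ Ψ ρ F qg qh cg ch dΓ dΛ cj m lg ν nb fp
  obtain ⟨-, -, -, bh, -⟩ := RMOV.kit qg qh cj nb.cv
  refine ⟨nb.yw, qg.rp.db.refl, fun p => nb.isb (F p), fun p => nb.b1 (F p),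
    nb.cont.comp (F.continuous.prodMap continuous_id),
    fun x => CR.ex_cpt g qg.rp.riem x (EuclideanSpace.single 0 1) (by simp),
    fun p => ?_, fun p => ⟨rfl, ?_, ?_⟩, fun z w hw => ?_,
    mov g h C C' Γ Λ Φ Ψ ρ F qg qh cg ch dΓ dΛ cj m lg ν nb,
    lip g h C C' Γ Λ Φ Ψ ρ F qg qh cg ch dΓ dΛ cj m lg ν nb, fun p q e ε hε => ?_⟩
  · have := bh.self (F p) 0
    rw [qh.rp.flow.zero, neg_zero] at this
    exact this
  · change (F (ng p)).1.1 = (F p).1.1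
    rw [fp]
    rfl
  · change ν (F (ng p)) (F p).1.1 = -ν (F p) (F p).1.1
    rw [fp, nb.foot, ← map_neg]
    exact nb.foot (ng (F p))
  · have u : h z (m.R z w) (m.R z w) = 1 := by
      rw [nb.lk.orth, real_inner_self_eq_norm_sq, hw, one_pow]
    refine ⟨F.symm ⟨(z, m.R z w), u⟩, ?_, ?_⟩
    · change (F (F.symm _)).1.1 = z
      rw [F.apply_symm_apply]
    · change ν (F (F.symm _)) z = w
      rw [F.apply_symm_apply]
      exact (nb.foot ⟨(z, m.R z w), u⟩).trans (nb.yw.ok.SR z w)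
  · filter_upwards [gr g h C C' Γ Λ Φ Ψ ρ F qg qh cg ch dΓ dΛ cj m lg ν nb fp p q e ε hε]
      with T hT
    change CR.bus h Ψ (F p) (m.Z T ((F q).1.1, ν (F q) (F q).1.1)).1 ≤ T + ε
    rw [nb.foot, nb.lk.flow]
    exact hT

theorem sVEQ : SVEQ := RVOL.veq

end Pool.Agent.MP_3ee8cb_gt.DZ
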