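import Pool.Agent.MP_3ee8cb_gt.DZ.Spec

/-! First consequences for a family. -/

namespace Pool.Agent.MP_3ee8cb_gt.DZ

open DN (Dim dm)

variable [Dim]

open Set Filter Topology Real DN
open scoped RealInnerProductSpace

namespace RBG

variable {m : MF} {lg : V × V → V} {dX : V → V → ℝ} {P : Type} [TopologicalSpace P] {A : Fam P}

theorem join (hy : YW m lg) (y z u : V) (hu : ‖u‖ = 1) :
    ∃ v, ‖v‖ = 1 ∧ (m.Z ‖lg (y, z)‖ (y, v)).1 = z := by
  have h := hy.had.ex y z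
  have key : ∀ v : V, lg (y, z) = ‖lg (y, z)‖ • v → (m.Z ‖lg (y, z)‖ (y, v)).1 = z := fun v hv => by
    have h2 := hy.jac.scale 1 ‖lg (y, z)‖ y v
    rw [← hv, mul_one] at h2
    rw [← congrArg Prod.fst h2, h]
  by_cases h0 : lg (y, z) = 0
  · exact ⟨u, hu, key u (by rw [h0, norm_zero, zero_smul])⟩
  · have h1 := (norm_pos_iff.2 h0).ne'
    refine ⟨‖lg (y, z)‖⁻¹ • lg (y, z), ?_, key _ ?_⟩
    · rw [norm_smul, norm_inv, norm_norm, inv_mul_cancel₀ h1]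
    · rw [smul_smul, mul_inv_cancel₀ h1, one_smul]

theorem opp (hb : BF m lg dX A) (p : P) (z : V) : 0 ≤ A.β p z + A.β (A.fl p) z := by
  obtain ⟨-, h2, h3⟩ := hb.flp p
  obtain ⟨v, hv, hz⟩ := join hb.yw (A.ft p) z _ ((hb.isb p).unit z)
  have a := (hb.isb p).lb (A.ft p) v ‖lg (A.ft p, z)‖ hv
  have b := (hb.isb (A.fl p)).lb (A.ft p) v ‖lg (A.ft p, z)‖ hv
  have f := hb.foot (A.fl p)
  rw [h2] at f
  rw [hz, hb.foot, exp_zero, one_mul] at a
  rw [hz, f, h3, inner_neg_left, exp_zero, one_mul] at b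
  have s := abs_real_inner_le_norm (A.ν p (A.ft p)) v
  rw [(hb.isb p).unit, hv, mul_one, abs_le] at s
  have c := cosh_sq ‖lg (A.ft p, z)‖
  have s0 : 0 ≤ sinh ‖lg (A.ft p, z)‖ := sinh_nonneg_iff.2 (norm_nonneg _)
  have cs := sinh_lt_cosh ‖lg (A.ft p, z)‖
  generalize ⟪A.ν p (A.ft p), v⟫ = r at a b s
  generalize cosh ‖lg (A.ft p, z)‖ = C at a b c cs
  generalize sinh ‖lg (A.ft p, z)‖ = S at a b c cs s0
  have p1 : 0 ≤ C - r * S := by nlinarith [mul_nonneg (sub_nonneg.2 s.2) s0]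
  have p2 : 0 ≤ C - -r * S := by nlinarith [mul_nonneg (neg_le_iff_add_nonneg.1 s.1) s0]
  have h := mul_le_mul a b p2 (exp_pos _).le
  rw [← exp_add] at h
  refine one_le_exp_iff.1 (le_trans ?_ h)
  have r2 : 0 ≤ 1 - r ^ 2 := by nlinarith [s.1, s.2]
  nlinarith [mul_nonneg r2 (sq_nonneg S)]

theorem two (hb : BF m lg dX A) (p q : P) (h : A.pr p = A.pr q) : A.β p (A.ft q) ≤ log 2 := by
  refine le_of_forall_pos_le_add fun e he => ?_
  obtain ⟨h1, h2, h3⟩ := hb.flp q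
  obtain ⟨T, a, b⟩ := ((hb.gr p q h e he).and (hb.gr p (A.fl q) (h.trans h1.symm) e he)).exists
  rw [h2, h3] at b
  have u := (hb.isb q).unit (A.ft q)
  have a' := ((hb.isb p).lb (A.ft q) _ T u).trans (exp_le_exp.2 a)
  have b' := ((hb.isb p).lb (A.ft q) (-A.ν q (A.ft q)) T (by rw [norm_neg, u])).trans
    (exp_le_exp.2 b)
  rw [inner_neg_right] at b'
  rw [cosh_eq T] at a' b'
  have e1 : exp (A.β p (A.ft q)) * exp T ≤ exp (log 2 + e) * exp T := by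
    rw [exp_add (log 2), exp_log two_pos, mul_assoc, ← exp_add e, add_comm e]
    linarith [mul_pos (exp_pos (A.β p (A.ft q))) (exp_pos (-T))]
  exact exp_le_exp.1 (le_of_mul_le_mul_right e1 (exp_pos T))

theorem onto (hb : BF m lg dX A) (x z w : V) (hw : ‖w‖ = 1) : ∃ p, A.pr p = x ∧ A.ν p z = w := by
  obtain ⟨p, -, h2⟩ := hb.sur z w hw
  obtain ⟨p', k, h3, h4⟩ := hb.mov p x
  refine ⟨p', h3, (hb.b1 p').eq z w hw ?_⟩
  have h := (hb.isb p).ray z 1
  rw [h2] at h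
  rw [h4, h4, h]
  linarith

theorem same (hb : BF m lg dX A) (p p' : P) (z : V) (h : A.pr p = A.pr p')
    (hn : A.ν p z = A.ν p' z) : A.β p z = A.β p' z := by
  have k := hb.lip p p' (A.β p' z - A.β p z) fun y => by
    have a := (hb.b1 p).lim z y
    rw [hn] at a
    linarith [tendsto_nhds_unique a ((hb.b1 p').lim z y)]
  rw [h, hb.self, abs_nonpos_iff] at k
  linarith

theorem near (hb : BF m lg dX A) (p : P) (z : V) (R : ℝ) (hz : z ∈ A.C R (A.pr p)) :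
    ‖lg (A.ft p, z)‖ ≤ R + 1 := by
  obtain ⟨v, hv, hy⟩ := join hb.yw z (A.ft p) _ ((hb.isb p).unit z)
  obtain ⟨q, h1, h2⟩ := onto hb (A.pr p) z v hv
  have a := (hb.isb q).ray z ‖lg (z, A.ft p)‖
  rw [h2, hy] at a
  have b := opp hb q (A.ft p)
  have c := two hb (A.fl q) p ((hb.flp q).1.trans h1)
  have d := hz q h1
  have e : log 2 ≤ 1 := by linarith [log_le_sub_one_of_pos (two_pos (α := ℝ))]
  rw [hb.yw.had.rev z (A.ft p), norm_neg, hb.yw.jac.norm]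
  linarith

end RBG

theorem sBG : SBG := fun _ _ _ _ _ _ hb =>
  ⟨RBG.opp hb, RBG.two hb, RBG.onto hb, RBG.same hb, RBG.near hb⟩

end Pool.Agent.MP_3ee8cb_gt.DZ
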