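import Pool.Agent.MP_3ee8cb_gt.DZE.Kit
import Pool.Agent.MP_3ee8cb_gt.DZ.Spec

/-! If almost every direction is touched, the feet of the fibre are one point. -/

namespace Pool.Agent.MP_3ee8cb_gt.DZ

open Set Filter Topology MeasureTheory DN Real DZE
open scoped RealInnerProductSpace

variable [Dim] {m : MF} {lg : V × V → V}

namespace E1

theorem polar (y : YW m lg) (z x : V) : ∃ (v : V) (L : ℝ), ‖v‖ = 1 ∧ (m.Z L (z, v)).1 = x := by
  obtain ⟨v, h1, h2⟩ : ∃ v : V, ‖v‖ = 1 ∧ lg (z, x) = ‖lg (z, x)‖ • v := by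
    by_cases h : lg (z, x) = 0
    · exact ⟨EuclideanSpace.single 0 1, by simp, by simp [h]⟩
    · have h0 := norm_ne_zero_iff.2 h
      exact ⟨‖lg (z, x)‖⁻¹ • lg (z, x), by rw [norm_smul, norm_inv, norm_norm, inv_mul_cancel₀ h0],
        by rw [smul_smul, mul_inv_cancel₀ h0, one_smul]⟩
  refine ⟨v, ‖lg (z, x)‖, h1, ?_⟩
  have h3 := y.had.ex z x
  rwa [h2, y.jac.scale, mul_one] at h3

variable {b b' : V → ℝ} {n n' : V → V}

theorem lb (h : IsB m lg b n) (z : V) {v : V} (L : ℝ) (hv : ‖v‖ = 1) :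
    cosh L - ⟪n z, v⟫ * sinh L ≤ exp (b (m.Z L (z, v)).1 - b z) := by
  rw [exp_sub, le_div_iff₀' (exp_pos _)]
  exact h.lb z v L hv

theorem up (y : YW m lg) (h : IsB m lg b n) (z : V) {v : V} (hv : ‖v‖ = 1) :
    b (m.Z (-1) (z, v)).1 ≤ b z + 1 := by
  have e : (m.Z (-1) (z, v)).1 = (m.Z 1 (z, -v)).1 := by
    rw [← neg_one_smul ℝ v, y.jac.scale, mul_one]
  have := h.lip (m.Z 1 (z, -v)).1 z
  rw [y.had.rev, y.had.xe, norm_neg, y.jac.norm, norm_neg, hv] at this
  rw [e]; linarith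

theorem dn (y : YW m lg) (h : IsB m lg b n) (z : V) {v : V} (hv : ‖v‖ = 1) :
    b z - 1 ≤ b (m.Z 1 (z, v)).1 := by
  have := h.lip z (m.Z 1 (z, v)).1
  rw [y.had.xe, hv] at this
  linarith

theorem opp (y : YW m lg) (h : IsB m lg b n) (h' : IsB m lg b' n') {z : V} (hn : n' z = -n z)
    (x : V) : b z + b' z ≤ b x + b' x := by
  obtain ⟨v, L, h1, rfl⟩ := polar y z x
  have h3 := lb h' z L h1
  rw [hn, inner_neg_left, neg_mul, sub_neg_eq_add] at h3
  have h4 : |⟪n z, v⟫| ≤ 1 := (abs_real_inner_le_norm _ _).trans_eq (by rw [h.unit, h1, one_mul])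
  linarith [two_lb h4 (lb h z L h1) h3]

theorem foot (y : YW m lg) (h : IsB m lg b n) (h' : IsB m lg b' n') {z x : V}
    (hn : n' z = -n z) (e : b x = b z) (e' : b' x = b' z) : z = x := by
  obtain ⟨v, L, h1, rfl⟩ := polar y z x
  have h3 := lb h' z L h1
  have h4 := lb h z L h1
  rw [hn, inner_neg_left, neg_mul, sub_neg_eq_add, e', sub_self, exp_zero] at h3
  rw [e, sub_self, exp_zero] at h4
  rw [two_zero h4 h3, y.ok.zero]

theorem flat (y : YW m lg) (h : IsB m lg b n) (h1 : B1 m lg b n) (z : V) :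
    Flat (fun w => gp m b (z, w)) (n z) := by
  have d : ∀ t : ℝ, Differentiable ℝ fun v : V => b (m.Z t (z, v)).1 := fun t =>
    Differentiable.comp (fun x => (h1.der x).differentiableAt)
      ((y.ok.cZ.differentiable one_ne_zero).comp (f := fun v : V => (t, z, v)) (by fun_prop)).fst
  refine Flat.gap (flat_max (d _ _) fun v hv => ?_) (flat_min (d _ _) fun v hv => ?_)
  · rw [h.ray, sub_neg_eq_add]; exact up y h z hv
  · rw [h.ray]; exact dn y h z hv

end E1

open E1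

theorem sEND1 : SEND1 := by
  intro _ m lg dX P _ A bf ms bg x z ae
  have y := bf.yw
  have hK := bf.cpt x
  have c1 : ∀ t : ℝ, Continuous fun q : P × V => A.β q.1 (m.Z t (z, q.2)).1 := fun t =>
    bf.cont.comp (f := fun q : P × V => (q.1, (m.Z t (z, q.2)).1)) (continuous_fst.prodMk
      (y.ok.cZ.continuous.comp (f := fun q : P × V => (t, z, q.2)) (by fun_prop)).fst)
  have c2 : Continuous fun q : P × V => gp m (A.β q.1) (z, q.2) := (c1 _).rexp.sub (c1 _).rexp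
  have c3 : IsClosed ((⋂ r ∈ {p | A.pr p = x}, {q : P × V | gp m (A.β r) (z, q.2) ≤
      gp m (A.β q.1) (z, q.2)}) ∩ {q | A.β q.1 (m.Z 1 (z, q.2)).1 = A.β q.1 z - 1}) :=
    (isClosed_biInter fun r _ => isClosed_le
      (c2.comp (f := fun q : P × V => (r, q.2)) (by fun_prop)) c2).inter
      (isClosed_eq (c1 1) ((bf.cont.comp (f := fun q : P × V => (q.1, z))
        (by fun_prop)).sub continuous_const))
  have al : ∀ w, ‖w‖ = 1 → A.T m x z w := fun w hw => by
    obtain ⟨p, h1, h2, h3⟩ := ms.den _ (closed_ex hK c3) (ae.mono fun w ⟨p, h1, h2, h3⟩ =>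
      ⟨p, h1, mem_iInter₂.2 h3, h2 ▸ (bf.isb p).ray z 1⟩) w hw
    exact ⟨p, h1, (bf.b1 p).eq z w hw h3.le, fun r hr => mem_iInter₂.1 h2 r hr⟩
  have cU : Continuous fun w : V => sSup ((fun p => gp m (A.β p) (z, w)) '' {p | A.pr p = x}) :=
    hK.continuous_sSup (c2.comp continuous_swap)
  have eU : ∀ w p, A.pr p = x → (∀ r, A.pr r = x → gp m (A.β r) (z, w) ≤ gp m (A.β p) (z, w)) →
      sSup ((fun p => gp m (A.β p) (z, w)) '' {p | A.pr p = x}) = gp m (A.β p) (z, w) :=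
    fun w p hp h => IsGreatest.csSup_eq ⟨mem_image_of_mem _ hp, forall_mem_image.2 h⟩
  have co := fun w v hw hv => const cU.continuousOn (w := w) (v := v) (fun w hw => by
    obtain ⟨p, h1, h2, h3⟩ := al w hw
    refine ⟨_, h2 ▸ flat y (bf.isb p) (bf.b1 p) z, (eU w p h1 h3).symm, fun v hv => ?_⟩
    obtain ⟨q, h4, -, h5⟩ := al v hv
    rw [eU v q h4 h5]; exact h5 p h1) hw hv
  have val : ∀ p, A.pr p = x → sSup ((fun q => gp m (A.β q) (z, A.ν p z)) '' {p | A.pr p = x}) =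
      exp (A.β p z) * (exp 1 - exp (-1)) := fun p hp => by
    obtain ⟨q, h1, h2, h3⟩ := al _ ((bf.isb p).unit z)
    rw [eU _ q h1 h3, gp, ← h2, (bf.isb q).ray, (bf.isb q).ray, bg.same q p z (h1.trans hp.symm) h2,
      sub_neg_eq_add, sub_eq_add_neg (A.β p z), exp_add, exp_add, mul_sub]
  have sm : ∀ p, A.pr p = x → ∀ q, A.pr q = x → A.β p z = A.β q z := fun p hp q hq => by
    have h1 := co _ _ ((bf.isb p).unit z) ((bf.isb q).unit z)
    simp only [val p hp, val q hq] at h1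
    exact exp_injective (mul_right_cancel₀ (sub_pos.2 (exp_lt_exp.2 (by norm_num))).ne' h1)
  have zero : ∀ p, A.pr p = x → A.β p z = 0 := fun p hp => by
    obtain ⟨r, r1, r2, -⟩ := al (-A.ν p z) (by rw [norm_neg, (bf.isb p).unit])
    have h1 : A.β p z + A.β r z ≤ 0 := le_of_forall_pos_le_add fun e he => by
      obtain ⟨T, hT⟩ := (bf.gr p r (hp.trans r1.symm) e he).exists
      have h2 := opp y (bf.isb p) (bf.isb r) r2 (m.Z T (A.ft r, A.ν r (A.ft r))).1
      rw [(bf.isb r).ray, bf.foot] at h2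
      linarith
    linarith [sm p hp r r1, sm p hp _ ((bf.flp p).1.trans hp), bg.opp p z]
  intro p hp
  obtain ⟨f1, f2, f3⟩ := bf.flp p
  refine foot y (bf.isb p) (bf.isb (A.fl p)) f3 (by rw [zero p hp, bf.foot]) ?_
  rw [zero _ (f1.trans hp), ← f2, bf.foot]

end Pool.Agent.MP_3ee8cb_gt.DZ
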