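import Pool.Agent.MP_3ee8cb_gt.DZ.Spec
import Pool.Agent.MP_3ee8cb_gt.LV.All

/-! The zero of the averaged field is equivariant. -/

namespace Pool.Agent.MP_3ee8cb_gt.DZ

open DN (Dim dm)

variable [Dim]

open Set Filter Topology MeasureTheory Real DN
open CR (Met UT Riem Deck RP dd ng tm FdP MinP bus)
open LV (QP CJ Fund vol)
open scoped RealInnerProductSpace

theorem sEQV : SEQV := by
  intro g h C C' Γ Λ _ _ _ _ Φ Ψ ρ F qg qh _ _ _ _ cj m lg ν O R R₀ f ms nb ac hR zr γ x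
  have mn := (LV.hm dm h Λ Ψ qh 1 one_pos
    (LV.all_hinge dm h Λ Ψ 1 qh.rp one_pos nb.cv)).1
  have ev := LV.eqv dm h Λ Ψ qh mn
  have bi : ∀ (p q : UT g), q.1 = tm γ p.1 → ∀ y,
      bus h Ψ (F q) (ρ γ • y) = bus h Ψ (F p) y := fun p q e y => by
    unfold bus
    refine iInf_congr fun t => ?_
    rw [ev (ρ γ) _ _ (cj.equi γ p q e) t]
    exact congrArg (· - t) (qh.rp.inv (ρ γ) y (Ψ t (F p)).1.1)
  have up : ∀ p : UT g, p.1.1 = x → ∃ q : UT g, q.1.1 = γ • x ∧ q.1 = tm γ p.1 := fun p hp =>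
    ⟨⟨tm γ p.1, (qg.rp.deck.iso _ _ _ _).trans p.2⟩, congrArg (γ • ·) hp, rfl⟩
  have dn : ∀ q : UT g, q.1.1 = γ • x → ∃ p : UT g, p.1.1 = x ∧ q.1 = tm γ p.1 := fun q hq => by
    refine ⟨⟨tm γ⁻¹ q.1, (qg.rp.deck.iso _ _ _ _).trans q.2⟩, ?_, ?_⟩
    · change γ⁻¹ • q.1.1 = x
      rw [hq, inv_smul_smul]
    · change q.1 = tm γ (tm γ⁻¹ q.1)
      rw [← CR.lift_tm_mul qg.rp.deck, mul_inv_cancel, CR.lift_tm_one]
  have ge : ∀ (p q : UT g), q.1 = tm γ p.1 → ∀ z w,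
      gp m (bus h Ψ (F q)) (ρ γ • z, O (ρ γ) z w) = gp m (bus h Ψ (F p)) (z, w) :=
    fun p q e z w => by
      unfold gp
      rw [ac.flow (ρ γ) (-1) (z, w), ac.flow (ρ γ) 1 (z, w), bi p q e, bi p q e]
  have ue : ∀ z w, (fam Ψ F ν).u m (γ • x) (ρ γ • z) (O (ρ γ) z w) = (fam Ψ F ν).u m x z w :=
    fun z w => by
      unfold Fam.u
      congr 2
      ext r
      constructor
      · rintro ⟨q, hq, rfl⟩
        obtain ⟨p, hp, e⟩ := dn q hq
        exact ⟨p, hp, (ge p q e z w).symm⟩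
      · rintro ⟨p, hp, rfl⟩
        obtain ⟨q, hq, e⟩ := up p hp
        exact ⟨q, hq, ge p q e z w⟩
  refine (zr.uniq (γ • x) (ρ γ • f x) (fun q hq => ?_) ?_).symm
  · obtain ⟨p, hp, e⟩ := dn q hq
    exact (bi p q e (f x)).trans_le ((zr.mem x p hp).trans hR)
  · have k := zr.zero x
    unfold VV at k ⊢
    set o := O (ρ γ) (f x) with ho
    rw [← (ms.rot o).integral_comp o.toHomeomorph.measurableEmbedding]
    have e : ∀ w : V, (fam Ψ F ν).u m (γ • x) (ρ γ • f x) (un (o w)) • un (o w) =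
        o ((fam Ψ F ν).u m x (f x) (un w) • un w) := fun w => by
      have : un (o w) = o (un w) := by
        unfold un
        rw [o.norm_map, map_smul]
      rw [this, map_smul, ho, ue]
    simp only [e]
    rw [show (fun w : V => o ((fam Ψ F ν).u m x (f x) (un w) • un w)) = fun w : V =>
      o.toLinearIsometry ((fam Ψ F ν).u m x (f x) (un w) • un w) from rfl,
      o.toLinearIsometry.integral_comp_comm, k, map_zero]

end Pool.Agent.MP_3ee8cb_gt.DZ
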