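import Pool.Agent.MP_3ee8cb_gt.LV.RLPS
import Pool.Agent.MP_3ee8cb_gt.LV.RBP

/-! Busemann functions in negative curvature: the ray from a point, uniqueness, gradient. -/

namespace Pool.Agent.MP_3ee8cb_gt.DZ.H77

open Set Filter Topology Real Asymptotics
open CR (E Met UT Riem dd ng bus MinP uc_cpt)
open LV (QP BP ThP LbP lps_mono lps_decay lps_foot)

variable {n : ℕ} {h : Met n} {Γ : Type} [Group Γ] [MulAction Γ (E n)] {Ψ : ℝ → UT h → UT h}

/-- The segment from `y` to the point at time `k` of the geodesic of `w` is close to it. -/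
theorem step (Q : QP h Γ Ψ) {a : ℝ} (ha : 0 < a) (hm : MinP h Ψ) (hth : ThP h Ψ a)
    {w u : UT h} {k L : ℝ} (hk : 0 ≤ k) (hL : L = dd h u.1.1 (Ψ k w).1.1)
    (h2 : (Ψ L u).1.1 = (Ψ k w).1.1) :
    |L - k| ≤ dd h u.1.1 w.1.1 ∧ ∀ T, 0 ≤ T → T ≤ k →
      cosh (a * dd h (Ψ (T + (L - k)) u).1.1 (Ψ T w).1.1) ≤
        1 + exp (-(2 * a * T)) * (cosh (a * (2 * dd h u.1.1 w.1.1)) - 1) := by
  have db := Q.rp.db
  have z0 := Q.rp.flow.zero
  have m2 : dd h w.1.1 (Ψ k w).1.1 = k := by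
    have := hm w 0 k
    rwa [z0, zero_sub, abs_neg, abs_of_nonneg hk] at this
  have b3 : |L - k| ≤ dd h u.1.1 w.1.1 := by
    have t1 := db.tri u.1.1 w.1.1 (Ψ k w).1.1
    have t2 := db.tri w.1.1 u.1.1 (Ψ k w).1.1
    have s1 := db.symm u.1.1 w.1.1
    exact abs_le.mpr ⟨by linarith, by linarith⟩
  refine ⟨b3, fun T hT hTk => ?_⟩
  have t1 := hth (ng (Ψ L u)) (ng (Ψ k w)) h2 k T hT hTk
  have e0 : ∀ (s : ℝ) (p : UT h), (Ψ s (ng p)).1.1 = (Ψ (-s) p).1.1 := fun s p => by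
    rw [Q.rp.fl.rev]; rfl
  have e1 : Ψ (-(k - T)) (Ψ L u) = Ψ (T + (L - k)) u := by
    rw [← Q.add]; congr 1; ring
  have e2 : Ψ (-(k - T)) (Ψ k w) = Ψ T w := by
    rw [← Q.add]; congr 1; ring
  have e3 : Ψ (-k) (Ψ k w) = w := by
    rw [← Q.add, neg_add_cancel, z0]
  have e4 : Ψ (-k) (Ψ L u) = Ψ (L - k) u := by
    rw [← Q.add]; congr 1; ring
  rw [e0, e0, e0, e0, e1, e2, e3, e4] at t1
  refine t1.trans (lps_mono ha (db.nonneg _ _) ?_ (exp_pos _).le)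
  have t2 := db.tri (Ψ (L - k) u).1.1 u.1.1 w.1.1
  have t4 := hm u (L - k) 0
  rw [z0, sub_zero] at t4
  linarith

/-- The ray from `y` that is asymptotic to `w`. -/
theorem exa (Q : QP h Γ Ψ) {a : ℝ} (ha : 0 < a) (hm : MinP h Ψ) (hth : ThP h Ψ a)
    (bp : BP h Ψ) (w : UT h) (y : E n) : ∃ ν : UT h, ν.1.1 = y ∧
      (∀ T, 0 ≤ T → cosh (a * dd h (Ψ (T + bus h Ψ w y) ν).1.1 (Ψ T w).1.1) ≤
        1 + exp (-(2 * a * T)) * (cosh (a * (2 * dd h y w.1.1)) - 1)) ∧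
      Tendsto (fun t => dd h (Ψ t (Ψ (bus h Ψ w y) ν)).1.1 (Ψ t w).1.1) atTop (𝓝 0) ∧
      ∀ x, bus h Ψ w x = bus h Ψ ν x + bus h Ψ w y := by
  have db := Q.rp.db
  choose u hu1 hu2 using fun k : ℕ => Q.rp.hr y (Ψ k w).1.1
  have st := fun k : ℕ => (step Q ha hm hth (w := w) (u := u k) (Nat.cast_nonneg k)
    (by rw [hu1]) (hu2 k)).2
  obtain ⟨ν, hν, φ, hφ, hlim⟩ := (uc_cpt Q.rp.riem (isCompact_singleton (x := y))).tendsto_subseq
    (x := u) fun k => hu1 k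
  have hy : ν.1.1 = y := hν
  have up : Tendsto (fun k : ℕ => (φ k : ℝ)) atTop atTop :=
    tendsto_natCast_atTop_atTop.comp hφ.tendsto_atTop
  have lb := (bp.lim w y).comp up
  have l2 : ∀ T, 0 ≤ T → cosh (a * dd h (Ψ (T + bus h Ψ w y) ν).1.1 (Ψ T w).1.1) ≤
      1 + exp (-(2 * a * T)) * (cosh (a * (2 * dd h y w.1.1)) - 1) := by
    intro T hT
    have c1 : Continuous fun z : ℝ × UT h => (Ψ (T + z.1) z.2).1.1 :=
      (lps_foot Q.jc).comp ((continuous_const.add continuous_fst).prodMk continuous_snd)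
    have c2 : Continuous fun z : ℝ × UT h =>
        cosh (a * dd h (Ψ (T + z.1) z.2).1.1 (Ψ T w).1.1) :=
      continuous_cosh.comp (continuous_const.mul (db.cont.comp (c1.prodMk continuous_const)))
    refine le_of_tendsto ((c2.tendsto (bus h Ψ w y, ν)).comp (lb.prodMk_nhds hlim)) ?_
    filter_upwards [up.eventually_ge_atTop T] with k hk
    have := st (φ k) T hT hk
    rw [hu1] at this
    exact this
  obtain ⟨-, d4⟩ := lps_decay ha (by have := db.nonneg y w.1.1; positivity)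
    (fun T => db.nonneg _ _) l2
  have d5 : Tendsto (fun t => dd h (Ψ t (Ψ (bus h Ψ w y) ν)).1.1 (Ψ t w).1.1) atTop (𝓝 0) := by
    refine d4.congr fun t => ?_
    rw [Q.add]
  exact ⟨ν, hy, l2, d5, fun x => by rw [← bp.top _ _ d5 x, bp.shift]⟩

/-- The distance of two unit vectors at a point. -/
theorem sq_sub (hr : Riem h) {p q : UT h} (e : p.1.1 = q.1.1) :
    h p.1.1 (p.1.2 - q.1.2) (p.1.2 - q.1.2) = 2 - 2 * h p.1.1 p.1.2 q.1.2 := by
  have h1 := p.2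
  have h2 := q.2
  rw [← e] at h2
  have h3 := hr.symm p.1.1 q.1.2 p.1.2
  simp only [map_sub, sub_apply]
  linarith

theorem eq_of_one (hr : Riem h) {p q : UT h} (e : p.1.1 = q.1.1)
    (h1 : 1 ≤ h p.1.1 p.1.2 q.1.2) : p = q := by
  have h2 := sq_sub hr e
  have h3 : p.1.2 - q.1.2 = 0 := by
    by_contra hne
    have := hr.pos p.1.1 _ hne
    linarith
  exact Subtype.ext (Prod.ext e (sub_eq_zero.mp h3))

/-- The angle bound. -/
theorem ang {a : ℝ} (lb : LbP h Ψ a) {p q : UT h} (e : p.1.1 = q.1.1) {L : ℝ} (hL : 0 ≤ L) :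
    (1 - h p.1.1 p.1.2 q.1.2) * sinh (a * L) ≤ exp (a * bus h Ψ p (Ψ L q).1.1) := by
  have h1 := lb p q e L hL
  have h2 := cosh_sub_sinh (a * L)
  have h3 := exp_pos (-(a * L))
  linarith

/-- Uniqueness of the ray. -/
theorem uniq (hr : Riem h) {a : ℝ} (ha : 0 < a) (lb : LbP h Ψ a) {p q : UT h}
    (e : p.1.1 = q.1.1) {C : ℝ} (hC : ∀ L, 0 ≤ L → bus h Ψ p (Ψ L q).1.1 ≤ C) : p = q := by
  refine eq_of_one hr e ?_
  by_contra hlt
  have hp : 0 < 1 - h p.1.1 p.1.2 q.1.2 := by linarith [not_le.mp hlt]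
  set θ := 1 - h p.1.1 p.1.2 q.1.2 with hθ
  have hL : 0 < (exp (a * C) / θ + 1) / a := by positivity
  have h1 := ang lb e hL.le
  have h2 : exp (a * bus h Ψ p (Ψ ((exp (a * C) / θ + 1) / a) q).1.1) ≤ exp (a * C) :=
    exp_le_exp.mpr (mul_le_mul_of_nonneg_left (hC _ hL.le) ha.le)
  rw [mul_div_cancel₀ _ ha.ne'] at h1
  have h3 : exp (a * C) / θ + 1 ≤ sinh (exp (a * C) / θ + 1) :=
    self_le_sinh_iff.mpr (by positivity)
  have h4 : θ * (exp (a * C) / θ + 1) = exp (a * C) + θ := by field_simp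
  have h5 := mul_le_mul_of_nonneg_left h3 hp.le
  linarith

/-- Rays at bounded distance have Busemann functions at bounded distance. -/
theorem bus_le (Q : QP h Γ Ψ) (bp : BP h Ψ) {w w' : UT h} {D : ℝ}
    (hD : ∀ᶠ t in atTop, dd h (Ψ t w).1.1 (Ψ t w').1.1 ≤ D) (x : E n) :
    bus h Ψ w x ≤ bus h Ψ w' x + D := by
  refine le_of_tendsto_of_tendsto (bp.lim w x) ((bp.lim w' x).add_const D) ?_
  filter_upwards [hD] with t ht
  have t1 := Q.rp.db.tri x (Ψ t w').1.1 (Ψ t w).1.1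
  have t2 := Q.rp.db.symm (Ψ t w').1.1 (Ψ t w).1.1
  linarith

/-- A one sided bound forces the same Busemann function up to a constant, and asymptoticity. -/
theorem same (Q : QP h Γ Ψ) {a : ℝ} (ha : 0 < a) (hm : MinP h Ψ) (hth : ThP h Ψ a)
    (bp : BP h Ψ) (lb : LbP h Ψ a) {w w' : UT h} {D : ℝ}
    (hD : ∀ L, 0 ≤ L → bus h Ψ w (Ψ L w').1.1 ≤ D) :
    Tendsto (fun t => dd h (Ψ t (Ψ (bus h Ψ w w'.1.1) w')).1.1 (Ψ t w).1.1) atTop (𝓝 0) ∧
      ∀ x, bus h Ψ w x = bus h Ψ w' x + bus h Ψ w w'.1.1 := by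
  obtain ⟨ν, h1, -, h2, h3⟩ := exa Q ha hm hth bp w w'.1.1
  have : ν = w' := uniq Q.rp.riem ha lb h1 (C := D - bus h Ψ w w'.1.1) fun L hL => by
    have := h3 (Ψ L w').1.1
    have := hD L hL
    linarith
  subst this
  exact ⟨h2, h3⟩

/-- The gradient of the Busemann function at the foot point. -/
theorem der (bp : BP h Ψ) (z0 : ∀ p, Ψ 0 p = p) (p : UT h) :
    HasFDerivAt (bus h Ψ p) (-h p.1.1 p.1.2) p.1.1 := by
  obtain ⟨C, hC⟩ := bp.up (‖p.1.1‖ + 1)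
  have b0 : bus h Ψ p p.1.1 = 0 := by
    have := bp.self p 0
    rwa [z0, neg_zero] at this
  rw [hasFDerivAt_iff_isLittleO]
  have o2 : (fun x : E n => ‖x - p.1.1‖ ^ 2) =o[𝓝 p.1.1] fun x => x - p.1.1 :=
    isLittleO_pow_sub_sub p.1.1 (by norm_num)
  refine (IsBigO.of_bound C ?_).trans_isLittleO o2
  filter_upwards [Metric.ball_mem_nhds p.1.1 one_pos] with x hx
  have hx' : ‖x‖ ≤ ‖p.1.1‖ + 1 := by
    have h1 := mem_ball_iff_norm.mp hx
    have h2 := norm_le_norm_add_norm_sub' x p.1.1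
    linarith
  have h1 := hC p x (by linarith) hx'
  have h2 := hC (ng p) x (by change ‖p.1.1‖ ≤ _; linarith) hx'
  have h3 := bp.opp p x
  have e : h (ng p).1.1 (ng p).1.2 (x - (ng p).1.1) = -h p.1.1 p.1.2 (x - p.1.1) := by
    simp [ng]
  have e' : ‖x - (ng p).1.1‖ = ‖x - p.1.1‖ := rfl
  rw [e, e'] at h2
  rw [b0, sub_zero, neg_apply, Real.norm_eq_abs, Real.norm_eq_abs,
    abs_of_nonneg (sq_nonneg ‖x - p.1.1‖)]
  exact abs_le.mpr ⟨by linarith, by linarith⟩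

/-- The gradient of the Busemann function at any point. -/
theorem der' (bp : BP h Ψ) (z0 : ∀ p, Ψ 0 p = p) {w ν : UT h} {k : ℝ}
    (e : ∀ x, bus h Ψ w x = bus h Ψ ν x + k) :
    HasFDerivAt (bus h Ψ w) (-h ν.1.1 ν.1.2) ν.1.1 := by
  rw [show bus h Ψ w = fun x => bus h Ψ ν x + k from funext e]
  exact (der bp z0 ν).add_const k

/-- Directions to points that go to infinity below a horosphere converge to the ray. -/
theorem dir {ι : Type} {l : Filter ι} (hr : Riem h) {a : ℝ} (ha : 0 < a) (lb : LbP h Ψ a)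
    {ν : UT h} {u : ι → UT h} {L : ι → ℝ} {C : ℝ} (hu : ∀ i, (u i).1.1 = ν.1.1)
    (hL : Tendsto L l atTop) (hC : ∀ᶠ i in l, bus h Ψ ν (Ψ (L i) (u i)).1.1 ≤ C) :
    Tendsto u l (𝓝 ν) := by
  have cf : Continuous fun q : UT h => h ν.1.1 ν.1.2 q.1.2 :=
    (h ν.1.1 ν.1.2).continuous.comp (continuous_snd.comp continuous_subtype_val)
  have lim : Tendsto (fun i => exp (a * C) * (a * L i)⁻¹) l (𝓝 (exp (a * C) * 0)) :=
    (hL.const_mul_atTop ha).inv_tendsto_atTop.const_mul _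
  refine (uc_cpt hr (isCompact_singleton (x := ν.1.1))).tendsto_nhds_of_unique_mapClusterPt
    (Eventually.of_forall hu) fun q hq hc => (eq_of_one hr (Eq.symm hq) ?_).symm
  by_contra hlt
  have hp : 0 < 1 - h ν.1.1 ν.1.2 q.1.2 := by linarith [not_le.mp hlt]
  set θ := 1 - h ν.1.1 ν.1.2 q.1.2 with hθ
  have ev : ∀ᶠ p in 𝓝 q, h ν.1.1 ν.1.2 p.1.2 < 1 - θ / 2 :=
    cf.continuousAt.eventually_lt_const (by linarith)
  have e2 : ∀ᶠ i in l, exp (a * C) * (a * L i)⁻¹ < θ / 2 :=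
    lim.eventually_lt_const (by rw [mul_zero]; positivity)
  obtain ⟨i, h1, h2, h3, h4⟩ := ((mapClusterPt_iff_frequently.mp hc _ ev).and_eventually
    (e2.and (hC.and (hL.eventually_gt_atTop 0)))).exists
  have h5 := ang lb (hu i).symm h4.le
  have h6 : exp (a * bus h Ψ ν (Ψ (L i) (u i)).1.1) ≤ exp (a * C) :=
    exp_le_exp.mpr (mul_le_mul_of_nonneg_left h3 ha.le)
  have h7 : 0 < a * L i := mul_pos ha h4
  have h8 : a * L i ≤ sinh (a * L i) := self_le_sinh_iff.mpr h7.le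
  rw [← div_eq_mul_inv, div_lt_iff₀ h7] at h2
  have h9 : h ν.1.1 ν.1.2 (u i).1.2 < 1 - θ / 2 := h1
  nlinarith

end Pool.Agent.MP_3ee8cb_gt.DZ.H77
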