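import Pool.Agent.MP_3ee8cb_gt.DZ.Spec
import Pool.Agent.MP_3ee8cb_gt.DZ.H77Exa
import Pool.Agent.MP_3ee8cb_gt.TB.Fin
import Pool.Agent.MP_3ee8cb_gt.LV.RHM

/-! Asymptotes, continuity of Busemann functions, and their direction fields in frames. -/

namespace Pool.Agent.MP_3ee8cb_gt.DZ

open DN (Dim dm)

open Set Filter Topology Real DN
open CR (E Met UT Riem dd ng bus MinP)
open LV (QP BP ThP LbP I2P Hinge lps_foot)
open scoped RealInnerProductSpace

namespace H77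

/-- All comparison facts. -/
theorem pack {n : ℕ} {h : Met n} {Λ : Type} [Group Λ] [MulAction Λ (E n)] {Ψ : ℝ → UT h → UT h}
    (q : QP h Λ Ψ) {a : ℝ} (ha : 0 < a) (hc : TB.CurvLe h a) :
    Hinge h Ψ a ∧ MinP h Ψ ∧ I2P h Ψ a ∧ ThP h Ψ a ∧ BP h Ψ ∧ LbP h Ψ a := by
  have hi : Hinge h Ψ a := fun p p' e s t hs ht => by
    have := TB.hinge n h Λ Ψ a q.rp ha hc p p' e s t hs ht
    rwa [mul_assoc] at this
  obtain ⟨mh, i2⟩ := LV.hm n h Λ Ψ q a ha hi
  have bp := LV.bp n h Λ Ψ q mh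
  exact ⟨hi, mh, i2, LV.th n h Λ Ψ q a ha mh i2, bp, LV.lb n h Λ Ψ q a ha hi bp⟩

variable [Dim] {h : Met dm} {C : TB.Chr dm} {Ψ : ℝ → UT h → UT h} {m : MF}

theorem inn (o : m.OK) (l : Lk h C Ψ m) (y u v : V) : h y u v = ⟪m.S y u, m.S y v⟫ := by
  rw [← l.orth y, o.RS, o.RS]

theorem unit (o : m.OK) (l : Lk h C Ψ m) (p : UT h) : ‖m.S p.1.1 p.1.2‖ = 1 := by
  have := inn o l p.1.1 p.1.2 p.1.2
  rw [p.2, real_inner_self_eq_norm_sq] at this
  exact (pow_eq_one_iff_of_nonneg (norm_nonneg _) two_ne_zero).1 this.symm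

/-- A unit vector in the frame comes from a unit tangent vector. -/
theorem lift (o : m.OK) (l : Lk h C Ψ m) (y a : V) (ha : ‖a‖ = 1) : ∃ p : UT h, p.1.1 = y ∧
    m.S y p.1.2 = a ∧ ∀ t, m.Z t (y, a) = ((Ψ t p).1.1, m.S (Ψ t p).1.1 (Ψ t p).1.2) := by
  refine ⟨⟨(y, m.R y a), by
    change h y (m.R y a) (m.R y a) = 1
    rw [l.orth, real_inner_self_eq_norm_sq, ha, one_pow]⟩, rfl, o.SR _ _, fun t => ?_⟩
  rw [← l.flow]
  change _ = m.Z t (y, m.S y (m.R y a))
  rw [o.SR]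

end H77

variable [Dim]

theorem asy : SASY := by
  intro h C Λ _ _ Ψ q _ hc w y
  obtain ⟨-, hm, -, th, bp, -⟩ := H77.pack q one_pos hc
  obtain ⟨u, h1, -, h2, -⟩ := H77.exa q one_pos hm th bp w y
  refine ⟨u, h1, (h2.comp (tendsto_atTop_add_const_right _ (-bus h Ψ w y) tendsto_id)).congr
    fun t => ?_⟩
  change dd h (Ψ (t + -bus h Ψ w y) (Ψ (bus h Ψ w y) u)).1.1 (Ψ (t + -bus h Ψ w y) w).1.1 = _
  rw [← q.add, neg_add_cancel_right, sub_eq_add_neg]

theorem bc : SBC := by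
  intro h C Λ _ _ Ψ q _ hc
  obtain ⟨-, hm, -, th, bp, -⟩ := H77.pack q one_pos hc
  have db := q.rp.db
  have z0 := q.rp.flow.zero
  refine continuous_iff_continuousAt.2 fun z₀ =>
    continuousAt_of_locally_uniform_approx_of_continuousAt fun U hU => ?_
  obtain ⟨ε, hε, hU'⟩ := Metric.mem_uniformity_dist.1 hU
  have c0 : Continuous fun z : UT h × V => dd h z.2 z.1.1.1 := db.cont.comp
    (continuous_snd.prodMk (continuous_fst.comp (continuous_subtype_val.comp continuous_fst)))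
  obtain ⟨D, hD⟩ : ∃ D, dd h z₀.2 z₀.1.1.1 < D := ⟨_, lt_add_one _⟩
  have h1 : Tendsto (fun T : ℝ => exp (-(2 * 1 * T))) atTop (𝓝 0) :=
    tendsto_exp_neg_atTop_nhds_zero.comp (tendsto_id.const_mul_atTop (by positivity))
  have h2 : Tendsto (fun T : ℝ => 1 + exp (-(2 * 1 * T)) * (cosh (1 * (2 * D)) - 1)) atTop
      (𝓝 (1 + 0 * (cosh (1 * (2 * D)) - 1))) := (h1.mul_const _).const_add _
  have h3 : 1 + 0 * (cosh (1 * (2 * D)) - 1) < cosh ε := by
    rw [zero_mul, add_zero]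
    exact one_lt_cosh.mpr hε.ne'
  obtain ⟨T, t1, t2, t3⟩ := ((h2.eventually_lt_const h3).and
    ((eventually_ge_atTop D).and (eventually_ge_atTop 0))).exists
  have c1 : Continuous fun z : UT h × V => dd h z.2 (Ψ T z.1).1.1 - T := (db.cont.comp
    (continuous_snd.prodMk ((lps_foot q.jc).comp (continuous_const.prodMk continuous_fst)))).sub
      continuous_const
  refine ⟨_, c0.continuousAt.eventually_lt_const hD, _, c1.continuousAt, fun z hz => hU' ?_⟩
  have hz' : dd h z.2 z.1.1.1 < D := hz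
  obtain ⟨u, u1, u2, -, -⟩ := H77.exa q one_pos hm th bp z.1 z.2
  have k1 := ((u2 T t3).trans (LV.lps_mono (b := 2 * D) one_pos
    (by linarith [db.nonneg z.2 z.1.1.1]) (by linarith) (exp_pos _).le)).trans_lt t1
  rw [cosh_lt_cosh, one_mul, abs_of_nonneg (db.nonneg _ _), abs_of_pos hε] at k1
  have k2 := CR.bu_le db hm z.1 z.2 T
  have k3 := bp.lip z.1 z.1.1.1 z.2
  have k4 := bp.self z.1 0
  rw [z0] at k4
  have k5 := db.symm z.1.1.1 z.2
  have k6 := hm u 0 (T + bus h Ψ z.1 z.2)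
  rw [z0, u1, zero_sub, abs_neg, abs_of_nonneg (by linarith)] at k6
  have k7 := db.tri z.2 (Ψ (T + bus h Ψ z.1 z.2) u).1.1 (Ψ T z.1).1.1
  rw [Real.dist_eq]
  exact abs_lt.2 ⟨by linarith, by linarith⟩

theorem exa : SEXA := by
  intro h C Λ _ _ Ψ q _ m lg hc _ yw l dl
  obtain ⟨-, hm, -, th, bp, lb⟩ := H77.pack q one_pos hc
  have o := yw.ok
  choose N h1 h2 h3 h4 using H77.exa q one_pos hm th bp
  have pos : ∀ (w : UT h) (y v : V) (L : ℝ), ‖v‖ = 1 → 0 ≤ L →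
      exp (bus h Ψ w y) * (cosh L - ⟪m.S y (N w y).1.2, v⟫ * sinh L) ≤
        exp (bus h Ψ w (m.Z L (y, v)).1) := fun w y v L hv hL => by
    obtain ⟨p, p1, p2, p3⟩ := H77.lift o l y v hv
    have := lb (N w y) p ((h1 w y).trans p1.symm) L hL
    rw [h1, H77.inn o l, p2, one_mul, one_mul] at this
    rw [p3, h4 w y (Ψ L p).1.1, exp_add, mul_comm]
    exact mul_le_mul_of_nonneg_right this (exp_pos _).le
  refine ⟨fun w y => m.S y (N w y).1.2, fun w => ⟨⟨fun y => ?_, fun y t => ?_,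
    fun y v L hv => ?_, fun y y' => ?_⟩, ?_⟩⟩
  · have := H77.unit o l (N w y)
    rwa [h1] at this
  · have := l.flow t (N w y)
    rw [h1] at this
    rw [this, h4 w y (Ψ t (N w y)).1.1, bp.self]
    ring
  · rcases le_total 0 L with hL | hL
    · exact pos w y v L hv hL
    · have k := pos w y (-v) (-L) (by rw [norm_neg, hv]) (neg_nonneg.2 hL)
      have e := yw.jac.scale (-L) (-1) y v
      rw [neg_one_smul, neg_mul_neg, one_mul] at e
      rw [e, inner_neg_right, cosh_neg, sinh_neg, neg_mul_neg] at k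
      exact k
  · rw [dl]
    exact bp.lip w y y'
  · have e : N w w.1.1 = w := H77.uniq q.rp.riem one_pos lb (h1 w _)
      (C := -bus h Ψ w w.1.1) fun L hL => by
        have k1 := h4 w w.1.1 (Ψ L w).1.1
        have k2 := bp.self w L
        linarith
    change m.S w.1.1 (N w w.1.1).1.2 = _
    rw [e]

theorem sASY : SASY := asy

theorem sBC : SBC := bc

theorem sEXA : SEXA := exa

end Pool.Agent.MP_3ee8cb_gt.DZ
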