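import Pool.Agent.MP_3ee8cb_gt.LV.Spec

/-! Growth, convexity and continuity of Busemann functions under a conjugacy. -/

namespace Pool.Agent.MP_3ee8cb_gt.DZ

open CR LV Set Filter Topology Real

namespace H69

variable {n : ℕ}

theorem foot {h : Met n} {Λ : Type} [Group Λ] [MulAction Λ (E n)] {Ψ : ℝ → UT h → UT h}
    (Q : QP h Λ Ψ) (v : UT h) (c r : ℝ) : (Ψ r (ng (Ψ c v))).1.1 = (Ψ (c - r) v).1.1 := by
  rw [Q.rp.fl.rev, ← Q.add, show -r + c = c - r by ring]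
  rfl

theorem alg {T S l D x y : ℝ} (hT : 0 < T) (hS : 0 ≤ S) (hl : T + S ≤ l) (hD : 0 ≤ D)
    (hy : 0 ≤ y) (hy' : y ≤ S + D)
    (h : cosh x * sinh l ≤ sinh (l - T) * cosh T + sinh T * cosh y) : cosh x - 1 ≤ exp D := by
  have l0 : 0 < sinh l := sinh_pos_iff.2 (by linarith)
  have sT : 0 < sinh T := sinh_pos_iff.2 hT
  have a1 : sinh (l - T) * cosh T ≤ sinh l := by
    have := sinh_add (l - T) T
    rw [sub_add_cancel] at this
    nlinarith [mul_pos (cosh_pos (l - T)) sT]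
  have a2 : cosh y ≤ cosh S * exp D := by
    have b1 : cosh y ≤ cosh (S + D) := by
      rw [cosh_le_cosh, abs_of_nonneg hy, abs_of_nonneg (by linarith)]
      exact hy'
    have b2 : sinh S ≤ cosh S := (sinh_lt_cosh S).le
    have b3 : 0 ≤ sinh D := sinh_nonneg_iff.2 hD
    rw [cosh_add] at b1
    rw [← cosh_add_sinh]
    nlinarith [mul_le_mul_of_nonneg_right b2 b3]
  have a3 : sinh T * cosh S ≤ sinh l := by
    have b1 : sinh (T + S) ≤ sinh l := sinh_le_sinh.2 hl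
    rw [sinh_add] at b1
    nlinarith [mul_nonneg (cosh_pos T).le (sinh_nonneg_iff.2 hS)]
  have a4 : sinh T * cosh y ≤ sinh l * exp D := by
    calc sinh T * cosh y ≤ sinh T * (cosh S * exp D) := mul_le_mul_of_nonneg_left a2 sT.le
      _ = sinh T * cosh S * exp D := by ring
      _ ≤ _ := mul_le_mul_of_nonneg_right a3 (exp_pos D).le
  have a5 : (cosh x - 1) * sinh l ≤ exp D * sinh l := by nlinarith
  exact le_of_mul_le_mul_right a5 l0

/-- A long segment between far points of two rays starts almost along the first ray. -/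
theorem one_end {h : Met n} {Λ : Type} [Group Λ] [MulAction Λ (E n)] {Ψ : ℝ → UT h → UT h}
    (Q : QP h Λ Ψ) (mh : MinP h Ψ) (i2 : I2P h Ψ 1) (th : ThP h Ψ 1) (D δ : ℝ) (hδ : 0 < δ) :
    ∃ T₀ : ℝ, 0 < T₀ ∧ ∀ T S l : ℝ, T₀ ≤ T → 0 ≤ S → T + S ≤ l → ∀ w w' u : UT h,
      dd h w.1.1 w'.1.1 ≤ D → u.1.1 = (Ψ T w).1.1 → (Ψ l u).1.1 = (Ψ S w').1.1 →
      ∀ τ ∈ Icc (0 : ℝ) 1, dd h (Ψ τ u).1.1 (Ψ τ (ng (Ψ T w))).1.1 ≤ δ := by
  have db := Q.rp.db
  have hη : 0 < cosh δ - 1 := by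
    have := one_lt_cosh.2 hδ.ne'
    linarith
  have h1 : Tendsto (fun m : ℝ => 2 * 1 * m) atTop atTop :=
    Tendsto.const_mul_atTop (by positivity) tendsto_id
  have h2 : Tendsto (fun m : ℝ => exp (-(2 * 1 * m)) * exp D) atTop (𝓝 0) := by
    simpa using (tendsto_exp_neg_atTop_nhds_zero.comp h1).mul_const (exp D)
  obtain ⟨M, hM⟩ := eventually_atTop.1 (h2.eventually (gt_mem_nhds hη))
  refine ⟨|M| + 1, by positivity, fun T S l hT hS hl w w' u hD h0 hl' τ hτ => ?_⟩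
  have hM0 := abs_nonneg M
  have hM1 := le_abs_self M
  have z : ∀ (v : UT h) (t : ℝ), 0 ≤ t → dd h v.1.1 (Ψ t v).1.1 = t := by
    intro v t ht
    have := mh v 0 t
    rwa [Q.rp.flow.zero, zero_sub, abs_neg, abs_of_nonneg ht] at this
  have k1 := i2 u w.1.1 l T (by linarith) (by linarith)
  simp only [one_mul] at k1
  rw [h0, hl', z w T (by linarith)] at k1
  have k2 := alg (D := D) (by linarith) hS hl ((db.nonneg _ _).trans hD) (db.nonneg _ _)
    (by linarith [db.tri w.1.1 w'.1.1 (Ψ S w').1.1, z w' S hS]) k1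
  have k3 := th u (ng (Ψ T w)) h0 T (T - τ) (by linarith [hτ.2]) (by linarith [hτ.1])
  rw [sub_sub_cancel, foot Q w T T, sub_self, Q.rp.flow.zero, one_mul, one_mul,
    db.symm (Ψ T u).1.1] at k3
  have k4 := hM (T - τ) (by linarith [hτ.2])
  have k5 := mul_le_mul_of_nonneg_left k2 (exp_pos (-(2 * 1 * (T - τ)))).le
  have k6 : cosh (dd h (Ψ τ u).1.1 (Ψ τ (ng (Ψ T w))).1.1) ≤ cosh δ := by linarith
  rwa [cosh_le_cosh, abs_of_nonneg (db.nonneg _ _), abs_of_pos hδ] at k6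

theorem ng_ng {g : Met n} (p : UT g) : ng (ng p) = p := by
  apply Subtype.ext
  simp [ng]

/-- Far points of two rays with a common foot in the source. -/
theorem far {g h : Met n} {Γ Λ : Type} [Group Γ] [MulAction Γ (E n)] [Group Λ]
    [MulAction Λ (E n)] {Φ : ℝ → UT g → UT g} {Ψ : ℝ → UT h → UT h} {F : UT g ≃ₜ UT h}
    (qg : QP g Γ Φ) (qh : QP h Λ Ψ) (mg : MinP g Φ) (mh : MinP h Ψ) (i2 : I2P h Ψ 1)
    (th : ThP h Ψ 1) (uq : UQ g h Ψ F) (fl : ∀ t p, F (Φ t p) = Ψ t (F p))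
    (fp : ∀ p, F (ng p) = ng (F p)) (ε : ℝ) (hε : 0 < ε) : ∃ T₀ : ℝ, 0 < T₀ ∧
    ∀ T S : ℝ, T₀ ≤ T → T₀ ≤ S → ∀ p q : UT g, p.1.1 = q.1.1 →
      dd h (Ψ T (F q)).1.1 (Ψ S (F p)).1.1 ≤ T + S + ε := by
  obtain ⟨δ, hδ, hf⟩ := uq.foot (ε / 2) (by linarith)
  obtain ⟨D, hD⟩ := uq.bdd
  obtain ⟨T₀, h0, H⟩ := one_end qh mh i2 th D δ hδ
  refine ⟨T₀, h0, fun T S hT hS p q e => ?_⟩
  by_contra hc
  obtain ⟨u, u0, u1⟩ := qh.rp.hr (Ψ T (F q)).1.1 (Ψ S (F p)).1.1
  generalize dd h (Ψ T (F q)).1.1 (Ψ S (F p)).1.1 = l at hc u1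
  have hl : T + S + ε < l := not_le.1 hc
  obtain ⟨r, rfl⟩ := F.surjective u
  have a1 : dd g r.1.1 (ng (Φ T q)).1.1 ≤ ε / 2 := by
    refine hf _ _ fun τ hτ => ?_
    rw [fp, fl]
    exact H T S l hT (by linarith) (by linarith) (F q) (F p) (F r) (hD q p e.symm) u0 u1 τ hτ
  have a2 : dd g (ng (Φ l r)).1.1 (ng (Φ S p)).1.1 ≤ ε / 2 := by
    refine hf _ _ fun τ hτ => ?_
    rw [fp, fp, fl, fl]
    refine H S T l hS (by linarith) (by linarith) (F p) (F q) (ng (Ψ l (F r))) (hD p q e)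
      u1 ?_ τ hτ
    rw [foot qh, sub_self, qh.rp.flow.zero, u0]
  have z : ∀ (v : UT g) (t : ℝ), 0 ≤ t → dd g v.1.1 (Φ t v).1.1 = t := by
    intro v t ht
    have := mg v 0 t
    rwa [qg.rp.flow.zero, zero_sub, abs_neg, abs_of_nonneg ht] at this
  have db := qg.rp.db
  change dd g r.1.1 (Φ T q).1.1 ≤ ε / 2 at a1
  change dd g (Φ l r).1.1 (Φ S p).1.1 ≤ ε / 2 at a2
  have b1 := z r l (by linarith)
  have b2 := z q T (by linarith)
  have b3 := z p S (by linarith)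
  have t1 := db.tri r.1.1 (Φ T q).1.1 (Φ l r).1.1
  have t2 := db.tri (Φ T q).1.1 q.1.1 (Φ l r).1.1
  have t3 := db.tri p.1.1 (Φ S p).1.1 (Φ l r).1.1
  rw [db.symm (Φ T q).1.1 q.1.1, ← e] at t2
  rw [db.symm (Φ S p).1.1] at t3
  rw [← e] at b2
  linarith

/-- The growth bound for the Busemann functions. -/
theorem bus_le {g h : Met n} {Γ Λ : Type} [Group Γ] [MulAction Γ (E n)] [Group Λ]
    [MulAction Λ (E n)] {Φ : ℝ → UT g → UT g} {Ψ : ℝ → UT h → UT h} {F : UT g ≃ₜ UT h}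
    (qg : QP g Γ Φ) (qh : QP h Λ Ψ) (mg : MinP g Φ) (mh : MinP h Ψ) (i2 : I2P h Ψ 1)
    (th : ThP h Ψ 1) (bh : BP h Ψ) (uq : UQ g h Ψ F) (fl : ∀ t p, F (Φ t p) = Ψ t (F p))
    (fp : ∀ p, F (ng p) = ng (F p)) (ε : ℝ) (hε : 0 < ε) : ∃ T₀ : ℝ, 0 < T₀ ∧
    ∀ T : ℝ, T₀ ≤ T → ∀ p q : UT g, p.1.1 = q.1.1 →
      bus h Ψ (F p) (Ψ T (F q)).1.1 ≤ T + ε := by
  obtain ⟨T₀, h0, H⟩ := far qg qh mg mh i2 th uq fl fp ε hε
  refine ⟨T₀, h0, fun T hT p q e => le_of_tendsto (bh.lim (F p) _) ?_⟩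
  filter_upwards [eventually_ge_atTop T₀] with S hS
  linarith [H T S hT hS p q e]

theorem lim_cosh {h : Met n} {Ψ : ℝ → UT h → UT h} (db : DBP h) (bh : BP h Ψ) (w : UT h)
    (x : E n) : Tendsto (fun S => 2 * exp (-S) * cosh (dd h (Ψ S w).1.1 x)) atTop
      (𝓝 (exp (bus h Ψ w x))) := by
  have a1 : Tendsto (fun S => exp (dd h x (Ψ S w).1.1 - S)) atTop (𝓝 (exp (bus h Ψ w x))) :=
    (continuous_exp.tendsto _).comp (bh.lim w x)
  have a2 : Tendsto (fun S => exp (-S) * exp (-dd h x (Ψ S w).1.1)) atTop (𝓝 0) := by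
    refine squeeze_zero (fun S => by positivity) (fun S => ?_) tendsto_exp_neg_atTop_nhds_zero
    exact mul_le_of_le_one_right (exp_pos _).le
      (exp_le_one_iff.2 (neg_nonpos.2 (db.nonneg _ _)))
  have a3 := a1.add a2
  rw [add_zero] at a3
  refine a3.congr fun S => ?_
  rw [db.symm (Ψ S w).1.1, cosh_eq, sub_eq_add_neg, exp_add]
  ring

/-- Convexity of the exponential of a Busemann function along geodesics. -/
theorem cvx {h : Met n} {Ψ : ℝ → UT h → UT h} (db : DBP h) (bh : BP h Ψ) (i2 : I2P h Ψ 1)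
    (w u : UT h) {L t : ℝ} (h0 : 0 ≤ t) (h1 : t ≤ L) :
    exp (bus h Ψ w (Ψ t u).1.1) * sinh L ≤
      sinh (L - t) * exp (bus h Ψ w u.1.1) + sinh t * exp (bus h Ψ w (Ψ L u).1.1) := by
  refine le_of_tendsto_of_tendsto' ((lim_cosh db bh w (Ψ t u).1.1).mul_const (sinh L))
    (((lim_cosh db bh w u.1.1).const_mul (sinh (L - t))).add
      ((lim_cosh db bh w (Ψ L u).1.1).const_mul (sinh t))) fun S => ?_
  have k := i2 u (Ψ S w).1.1 L t h0 h1
  simp only [one_mul] at k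
  nlinarith [mul_le_mul_of_nonneg_left k (exp_pos (-S)).le]

/-- The feet of the image vectors lie in all the horoballs of level `log 2`. -/
theorem ctr {g h : Met n} {Γ Λ : Type} [Group Γ] [MulAction Γ (E n)] [Group Λ]
    [MulAction Λ (E n)] {Φ : ℝ → UT g → UT g} {Ψ : ℝ → UT h → UT h} {F : UT g ≃ₜ UT h}
    (qg : QP g Γ Φ) (qh : QP h Λ Ψ) (mg : MinP g Φ) (mh : MinP h Ψ) (i2 : I2P h Ψ 1)
    (th : ThP h Ψ 1) (bh : BP h Ψ) (uq : UQ g h Ψ F) (fl : ∀ t p, F (Φ t p) = Ψ t (F p))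
    (fp : ∀ p, F (ng p) = ng (F p)) (p q : UT g) (e : p.1.1 = q.1.1) :
    bus h Ψ (F p) (F q).1.1 ≤ log 2 := by
  refine le_of_forall_pos_le_add fun ε hε => ?_
  obtain ⟨T, h0, H⟩ := bus_le qg qh mg mh i2 th bh uq fl fp ε hε
  have a1 := exp_le_exp.2 (H T le_rfl p q e)
  have a2 := exp_le_exp.2 (H T le_rfl p (ng q) e)
  rw [fp, qh.rp.fl.rev] at a2
  change exp (bus h Ψ (F p) (Ψ (-T) (F q)).1.1) ≤ _ at a2
  have k := cvx qh.rp.db bh i2 (F p) (Ψ (-T) (F q)) (L := 2 * T) (t := T) h0.le (by linarith)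
  rw [← qh.add, ← qh.add, add_neg_cancel, qh.rp.flow.zero, show 2 * T + -T = T by ring,
    show 2 * T - T = T by ring, sinh_two_mul] at k
  have sT : 0 < sinh T := sinh_pos_iff.2 h0
  have b1 : exp (bus h Ψ (F p) (F q).1.1) * cosh T ≤ exp (T + ε) := by
    refine le_of_mul_le_mul_left ?_ sT
    nlinarith [mul_le_mul_of_nonneg_left a1 sT.le, mul_le_mul_of_nonneg_left a2 sT.le]
  have b2 : exp T ≤ 2 * cosh T := by
    rw [cosh_eq]
    linarith [exp_pos (-T)]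
  rw [← exp_le_exp, exp_add, exp_log two_pos]
  rw [exp_add] at b1
  refine le_of_mul_le_mul_right ?_ (exp_pos T)
  nlinarith [mul_le_mul_of_nonneg_left b2 (exp_pos (bus h Ψ (F p) (F q).1.1)).le]

/-- A point at which the sum of two Busemann functions is almost nonpositive. -/
theorem sum_le {g h : Met n} {Γ Λ : Type} [Group Γ] [MulAction Γ (E n)] [Group Λ]
    [MulAction Λ (E n)] {Φ : ℝ → UT g → UT g} {Ψ : ℝ → UT h → UT h} {F : UT g ≃ₜ UT h}
    (qg : QP g Γ Φ) (qh : QP h Λ Ψ) (mg : MinP g Φ) (mh : MinP h Ψ) (i2 : I2P h Ψ 1)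
    (th : ThP h Ψ 1) (bh : BP h Ψ) (uq : UQ g h Ψ F) (fl : ∀ t p, F (Φ t p) = Ψ t (F p))
    (fp : ∀ p, F (ng p) = ng (F p)) (p q : UT g) (e : p.1.1 = q.1.1) (ε : ℝ) (hε : 0 < ε) :
    ∃ y, bus h Ψ (F p) y + bus h Ψ (F q) y ≤ ε := by
  obtain ⟨T, -, H⟩ := bus_le qg qh mg mh i2 th bh uq fl fp ε hε
  exact ⟨(Ψ T (F q)).1.1, by linarith [H T le_rfl p q e, bh.self (F q) T]⟩

/-- The rate of convergence in the definition of the Busemann function. -/
theorem rate {h : Met n} {Ψ : ℝ → UT h → UT h} (db : DBP h) (bh : BP h Ψ)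
    (i2 : I2P h Ψ 1) (w : UT h) (z : E n) {T : ℝ} (hT : 0 ≤ T) :
    exp (bus h Ψ w z) ≤ exp (dd h z (Ψ T w).1.1 - T) ∧ exp (dd h z (Ψ T w).1.1 - T) ≤
      exp (bus h Ψ w z) + 2 * exp (-T) * cosh (dd h z w.1.1) := by
  constructor
  · have := bh.lip w z (Ψ T w).1.1
    rw [bh.self] at this
    exact exp_le_exp.2 (by linarith)
  have k : exp (dd h z (Ψ T w).1.1) ≤
      2 * cosh (dd h z w.1.1) + exp T * exp (bus h Ψ w z) := by
    have l1 := (lim_cosh db bh w z).const_mul (exp T)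
    have l2 : Tendsto (fun S : ℝ => 1 - exp (-S)) atTop (𝓝 (1 - 0)) :=
      tendsto_exp_neg_atTop_nhds_zero.const_sub 1
    have l3 := l2.const_mul (exp (dd h z (Ψ T w).1.1))
    rw [sub_zero, mul_one] at l3
    refine le_of_tendsto_of_tendsto l3 (l1.const_add (2 * cosh (dd h z w.1.1))) ?_
    filter_upwards [eventually_ge_atTop T] with S hS
    have k := i2 w z S T hT hS
    simp only [one_mul] at k
    rw [db.symm (Ψ S w).1.1]
    generalize dd h z (Ψ T w).1.1 = x at k ⊢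
    generalize dd h z (Ψ S w).1.1 = y at k ⊢
    generalize dd h z w.1.1 = d at k ⊢
    have e0 := exp_pos (-S)
    have e1 : exp (-S) * exp S = 1 := by rw [← exp_add, neg_add_cancel, exp_zero]
    have e2 : exp (-S) ≤ 1 := exp_le_one_iff.2 (by linarith)
    have a1 : exp x ≤ 2 * cosh x := by
      rw [cosh_eq]
      linarith [exp_pos (-x)]
    have a2 : 1 - exp (-S) ≤ 2 * exp (-S) * sinh S := by
      rw [sinh_eq]
      nlinarith
    have a3 : 2 * exp (-S) * sinh (S - T) ≤ 1 := by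
      have b1 : sinh (S - T) ≤ sinh S := sinh_le_sinh.2 (by linarith)
      have b2 : 2 * sinh S ≤ exp S := by
        rw [sinh_eq]
        linarith
      nlinarith
    have a4 : 2 * sinh T ≤ exp T := by
      rw [sinh_eq]
      linarith [exp_pos (-T)]
    have c1 : exp x * (1 - exp (-S)) ≤ 2 * cosh x * (2 * exp (-S) * sinh S) :=
      mul_le_mul a1 a2 (by linarith) (by linarith [cosh_pos x])
    have c2 := mul_le_mul_of_nonneg_left k (show 0 ≤ 4 * exp (-S) by linarith)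
    have c3 := mul_le_mul_of_nonneg_right a3 (cosh_pos d).le
    have c4 := mul_le_mul_of_nonneg_right a4 (mul_pos e0 (cosh_pos y)).le
    nlinarith
  have e1 : exp (-T) * exp T = 1 := by rw [← exp_add, neg_add_cancel, exp_zero]
  rw [sub_eq_add_neg, exp_add]
  refine (mul_le_mul_of_nonneg_right k (exp_pos (-T)).le).trans (le_of_eq ?_)
  linear_combination exp (bus h Ψ w z) * e1

/-- Joint continuity of the Busemann function. -/
theorem cont {h : Met n} {Ψ : ℝ → UT h → UT h} (db : DBP h) (bh : BP h Ψ)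
    (i2 : I2P h Ψ 1) (jc : JcP Ψ) : Continuous fun a : UT h × E n => bus h Ψ a.1 a.2 := by
  have cd : ∀ T : ℝ, Continuous fun a : UT h × E n => dd h a.2 (Ψ T a.1).1.1 := fun T =>
    db.cont.comp (continuous_snd.prodMk (continuous_fst.comp (continuous_subtype_val.comp
      (jc.comp (continuous_const.prodMk continuous_fst)))))
  have c0 : Continuous fun a : UT h × E n => cosh (dd h a.2 a.1.1.1) :=
    continuous_cosh.comp (db.cont.comp (continuous_snd.prodMk (continuous_fst.comp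
      (continuous_subtype_val.comp continuous_fst))))
  have u : TendstoUniformly (fun (T : ℝ) (a : UT h × E n) =>
      exp (dd h a.2 (Ψ T a.1).1.1 - T) / cosh (dd h a.2 a.1.1.1))
      (fun a => exp (bus h Ψ a.1 a.2) / cosh (dd h a.2 a.1.1.1)) atTop := by
    refine Metric.tendstoUniformly_iff.2 fun ε hε => ?_
    have l := tendsto_exp_neg_atTop_nhds_zero.const_mul 2
    rw [mul_zero] at l
    filter_upwards [l.eventually (gt_mem_nhds hε), eventually_ge_atTop 0] with T h1 h2 a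
    obtain ⟨r1, r2⟩ := rate db bh i2 a.1 a.2 h2
    have p := cosh_pos (dd h a.2 a.1.1.1)
    rw [dist_comm, Real.dist_eq, ← sub_div, abs_of_nonneg (div_nonneg (by linarith) p.le),
      div_lt_iff₀ p]
    nlinarith [mul_lt_mul_of_pos_right h1 p]
  have c1 := u.continuous (Frequently.of_forall fun T =>
    (continuous_exp.comp ((cd T).sub continuous_const)).div c0 fun a => (cosh_pos _).ne')
  have c2 : Continuous fun a : UT h × E n => exp (bus h Ψ a.1 a.2) :=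
    (c1.mul c0).congr fun a => div_mul_cancel₀ _ (cosh_pos _).ne'
  exact (c2.log fun a => (exp_pos _).ne').congr fun a => log_exp _

end H69

end Pool.Agent.MP_3ee8cb_gt.DZ
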