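import Pool.Agent.MP_3ee8cb_gt.DZ.Spec
import Pool.Agent.MP_3ee8cb_gt.DZ.H69Gr
import Pool.Agent.MP_3ee8cb_gt.TB.Fin
import Pool.Agent.MP_3ee8cb_gt.LV.RHM
import Pool.Agent.MP_3ee8cb_gt.LV.RMORSE
import Pool.Agent.MP_3ee8cb_gt.LV.RUQ
import Pool.Agent.MP_3ee8cb_gt.LV.RMIN2
import Pool.Agent.MP_3ee8cb_gt.LV.REQV
import Pool.Agent.MP_3ee8cb_gt.LV.RBP

/-! Growth of the Busemann functions along the rays with a common foot in the source. -/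

namespace Pool.Agent.MP_3ee8cb_gt.DZ

open DN (Dim dm)

variable [Dim]

open Filter

theorem sGR : SGR := by
  intro g h C C' Γ Λ _ _ _ _ Φ Ψ ρ F qg qh _ _ _ _ cj m lg ν N fp p q e ε hε
  have hi : LV.Hinge h Ψ 1 := fun p q e s t hs ht => by
    have := TB.hinge dm h Λ Ψ 1 qh.rp one_pos N.cv p q e s t hs ht
    rwa [mul_assoc] at this
  obtain ⟨mh, i2⟩ := LV.hm dm h Λ Ψ qh 1 one_pos hi
  have th := LV.th dm h Λ Ψ qh 1 one_pos mh i2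
  have uF := LV.uq dm g h Γ Λ Φ Ψ ρ F qg qh cj (LV.eqv dm h Λ Ψ qh mh)
  obtain ⟨mg, -⟩ := LV.min2 dm g h Γ Λ Φ Ψ ρ F qg qh cj uF (LV.morse dm h Λ Ψ qh 1 one_pos mh th)
  obtain ⟨T₀, -, H⟩ := H69.bus_le qg qh mg mh i2 th (LV.bp dm h Λ Ψ qh mh) uF cj.flow fp ε hε
  filter_upwards [eventually_ge_atTop T₀] with T hT using H T hT p q e

/-- Joint continuity of the Busemann function. -/
theorem sBC' : SBC := by
  intro h C Λ _ _ Ψ qh _ hc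
  have hi : LV.Hinge h Ψ 1 := fun p q e s t hs ht => by
    have := TB.hinge dm h Λ Ψ 1 qh.rp one_pos hc p q e s t hs ht
    rwa [mul_assoc] at this
  obtain ⟨mh, i2⟩ := LV.hm dm h Λ Ψ qh 1 one_pos hi
  exact H69.cont qh.rp.db (LV.bp dm h Λ Ψ qh mh) i2 qh.jc

end Pool.Agent.MP_3ee8cb_gt.DZ
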