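import Pool.Agent.MP_3ee8cb_gt.DZH.Fin

/-! Row H. -/

namespace Pool.Agent.MP_3ee8cb_gt.DZ

variable [DN.Dim]

theorem sH : SH := DZH.sH

end Pool.Agent.MP_3ee8cb_gt.DZ
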