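import Pool.Agent.MP_3ee8cb_gt.DZ.Spec
import Pool.Agent.MP_3ee8cb_gt.DZJ.Ana

/-! First order data of the zero of the averaged field. -/

namespace Pool.Agent.MP_3ee8cb_gt.DZ

open DN (Dim dm)

variable [Dim]

open Set Filter Topology MeasureTheory Metric DN
open scoped RealInnerProductSpace

theorem ja_un {w : V} (h : w ≠ 0) : ‖un w‖ = 1 := norm_smul_inv_norm (𝕜 := ℝ) h

theorem ja_lip {m₀ m : MF} {lg dX ε u C C₀ Q} (xw : XW m₀ dX) (sp : Sup m lg dX ε u C C₀ Q)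
    {f : V → V} (hf : LocallyLipschitz f) :
    LocallyLipschitzOn {q | q.2 ≠ 0} fun q : V × V => u q.1 (f q.1) (un q.2) := by
  rintro ⟨x, w⟩ (w0 : w ≠ 0)
  obtain ⟨K, hK⟩ := sp.lipz x (‖f x‖ + 1)
  obtain ⟨K1, t1, n1, h1⟩ := hf x
  obtain ⟨K2, t2, n2, h2⟩ : ∃ K, ∃ t ∈ 𝓝 w, LipschitzOnWith K un t :=
    (((contDiffAt_norm ℝ (n := 1) w0).inv (norm_ne_zero_iff.2 w0)).smul
      contDiffAt_id).exists_lipschitzOnWith
  have h3 := xw.upp x 1 one_pos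
  rw [nhds_prod_eq] at h3
  obtain ⟨t3, n3, h3⟩ := (eventually_prod_self_iff
    (r := fun y z => dX y z ≤ (1 + 1) * ‖m₀.S x (z - y)‖)).1 h3
  have n4 : ∀ᶠ y in 𝓝 x, ‖f y‖ ≤ ‖f x‖ + 1 :=
    hf.continuous.norm.continuousAt.eventually_le_const (lt_add_one _)
  have n5 : ∀ᶠ y in 𝓝 x, (1 + 1) * ‖m₀.S x (y - x)‖ ≤ 1 := by
    have c : Continuous fun y => (1 + 1) * ‖m₀.S x (y - x)‖ := by fun_prop
    exact c.continuousAt.eventually_le_const (by simp)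
  refine ⟨K * (K1 + K2) + 2 * ‖m₀.S x‖₊, (t1 ∩ t3 ∩ {y | ‖f y‖ ≤ ‖f x‖ + 1} ∩
    {y | (1 + 1) * ‖m₀.S x (y - x)‖ ≤ 1}) ×ˢ (t2 ∩ {a | a ≠ 0}), nhdsWithin_le_nhds
      (prod_mem_nhds (inter_mem (inter_mem (inter_mem n1 n3) n4) n5)
        (inter_mem n2 (isOpen_ne.mem_nhds w0))), LipschitzOnWith.of_dist_le_mul ?_⟩
  rintro ⟨y, a⟩ ⟨⟨⟨⟨y1, y3⟩, y4⟩, y5⟩, a2, a0⟩ ⟨z, b⟩ ⟨⟨⟨⟨z1, z3⟩, z4⟩, -⟩, b2, b0⟩
  have e1 := (hK y ((h3 x (mem_of_mem_nhds n3) y y3).trans y5)).dist_le_mul (f y, un a)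
    ⟨y4, ja_un a0⟩ (f z, un b) ⟨z4, ja_un b0⟩
  have e2 := (sp.lipx y z (f z) (un b) (ja_un b0)).trans (h3 y y3 z z3)
  have e3 := h1.dist_le_mul y y1 z z1
  have e4 := h2.dist_le_mul a a2 b b2
  have e5 := (m₀.S x).le_opNorm (z - y)
  have d1 : dist y z ≤ dist (y, a) (z, b) := le_max_left _ _
  have d2 : dist a b ≤ dist (y, a) (z, b) := le_max_right _ _
  have d0 : 0 ≤ dist (y, a) (z, b) := dist_nonneg
  have e6 : dist (f y, un a) (f z, un b) ≤ (K1 + K2) * dist (y, a) (z, b) := by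
    have k1 := mul_le_mul_of_nonneg_left d1 K1.2
    have k2 := mul_le_mul_of_nonneg_left d2 K2.2
    have k3 := mul_nonneg K1.2 d0
    have k4 := mul_nonneg K2.2 d0
    simp only [NNReal.val_eq_coe] at k1 k2 k3 k4
    exact max_le (by linarith) (by linarith)
  have e7 := mul_le_mul_of_nonneg_left e6 K.2
  have e8 := mul_le_mul_of_nonneg_left d1 (norm_nonneg (m₀.S x))
  rw [← dist_eq_norm, dist_comm] at e5
  rw [← Real.dist_eq] at e2
  have e9 := dist_triangle (u y (f y) (un a)) (u y (f z) (un b)) (u z (f z) (un b))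
  simp only [NNReal.val_eq_coe] at e7
  push_cast
  simp only at e1 e2 ⊢
  nlinarith

theorem sJA : SJA := by
  intro m₀ m lg dX ε u C C₀ Q ms xw yw _ _ sp f zr hf
  have := ms.fin
  have hd : ∀ (x e : V) (η : ℝ), 0 < η →
      ∀ᶠ s in 𝓝 (0 : ℝ), dX x (x + s • e) ≤ (‖m₀.S x e‖ + η) * |s| := fun x e η hη => by
    have p : 0 < ‖m₀.S x e‖ + 1 := by positivity
    have c : Continuous fun s : ℝ => (x, x + s • e) := by fun_prop
    have t := c.tendsto 0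
    rw [zero_smul, add_zero] at t
    filter_upwards [t.eventually (xw.upp x _ (div_pos hη p))] with s hs
    rw [add_sub_cancel_left, map_smul, norm_smul, Real.norm_eq_abs, mul_comm |s|,
      ← mul_assoc] at hs
    refine hs.trans (mul_le_mul_of_nonneg_right ?_ (abs_nonneg s))
    have : η / (‖m₀.S x e‖ + 1) * ‖m₀.S x e‖ ≤ η := by
      rw [div_mul_eq_mul_div, div_le_iff₀ p]
      nlinarith
    linarith
  filter_upwards [DZJ.ana yw.ok yw.jac mS ms.ac ms.mem ms.rot (N := fun x e => ‖m₀.S x e‖) hd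
    (u := fun x z => u x z.1 z.2) hf (ja_lip xw sp hf) (fun x x' z hz => by
      have := (abs_le.1 (sp.lipx x x' z.1 z.2 hz)).2
      linarith) zr.zero] with x ⟨h1, l, h2, h3⟩
  refine ⟨h1, fun w => (l w).comp (m₀.R x), fun T => ?_, ?_⟩
  · let b := stdOrthonormalBasis ℝ V
    have e : ∀ w, ((l w).comp (m₀.R x)) (T (un w)) =
        ∑ i, ⟪b i, l w (m₀.R x (T (b i))) • un w⟫ := fun w => by
      conv_lhs => rw [← b.sum_repr' (un w)]
      simp only [map_sum, map_smul, inner_smul_right, smul_eq_mul, mul_comm,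
        ContinuousLinearMap.comp_apply]
    have i : ∀ i, Integrable (fun w => ⟪b i, l w (m₀.R x (T (b i))) • un w⟫) mS := fun i =>
      (h2 _).1.const_inner _
    simp only [e]
    refine ⟨integrable_finsetSum _ fun j _ => i j, ?_⟩
    rw [integral_finsetSum _ fun j _ => i j]
    refine Finset.sum_eq_zero fun j _ => ?_
    have k := h2 (m₀.R x (T (b j)))
    exact (integral_inner k.1 _).trans (by rw [k.2, inner_zero_right])
  filter_upwards [h3, ms.mem] with w hw (w1 : 1 ≤ ‖w‖ ∧ ‖w‖ ≤ 2)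
  obtain ⟨Φ, D, c, ζ, k1, k2, k3, k4, k5, -, k6, k7, k8⟩ := sp.tou x (f x) (un w)
    (sp.nest x x (by rw [xw.self]; exact zero_le_one) (zr.mem x))
    (ja_un (norm_pos_iff.1 (one_pos.trans_le w1.1)))
  refine ⟨c, ζ, k4, k5, k6, k7, fun e => ?_⟩
  have := hw Φ (c • un w + ζ) ⟨k1.differentiableAt, k2, k3, fun ξ hξ =>
    (congrArg (· ξ) k1.fderiv).trans (k8 ξ hξ)⟩ (m₀.R x e)
  rwa [xw.ok.SR] at this

end Pool.Agent.MP_3ee8cb_gt.DZ
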