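import Pool.Agent.MP_3ee8cb_gt.DZ.Spec
import Pool.Agent.MP_3ee8cb_gt.DZJ.Alg
import Pool.Agent.MP_3ee8cb_gt.DZJ.Shell

/-! The algebraic half of the Jacobian estimate. -/

namespace Pool.Agent.MP_3ee8cb_gt.DZ

open DN (Dim dm)

variable [Dim]

open Set MeasureTheory DN
open scoped RealInnerProductSpace

theorem sJB : SJB := by
  intro ε L Q hM h0 hε ⟨l, h1, h2⟩
  have := hM.fin
  have hT : ∀ (e a w : V), l w (((innerSL ℝ a).smulRight e) (un w)) = l w e * ⟪un w, a⟫ :=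
    fun e a w => by
      simp only [ContinuousLinearMap.smulRight_apply, innerSL_apply_apply, map_smul, smul_eq_mul]
      rw [mul_comm, real_inner_comm]
  have hd : (1 : ℝ) ≤ dm := by
    unfold dm
    push_cast
    linarith [Nat.cast_nonneg (α := ℝ) Dim.k]
  have key := DZJ.alg mS un l L ε (hM.mem.mono fun w hw => DZJ.hat_norm (DZJ.sh_ne hw))
    DZJ.hat_meas.aestronglyMeasurable hM.iso
    (fun e a => by simpa only [hT] using (h1 ((innerSL ℝ a).smulRight e)).1)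
    (fun e a => by simpa only [hT] using (h1 ((innerSL ℝ a).smulRight e)).2)
    (by nlinarith [mul_nonneg (sub_nonneg.2 hd) h0, mul_nonneg (zero_le_one.trans hd) h0])
    (h2.mono fun w ⟨c, ζ, a1, a2, a3, _, a5⟩ => ⟨c, a1, ζ, a2, a3, a5⟩)
  refine ⟨key.1, fun h => ?_⟩
  filter_upwards [h2, (key.2 (le_antisymm key.1 h)).2] with w ⟨c, ζ, a1, a2, a3, a4, a5⟩ hw
  exact a4 (hw c ⟨a1, ζ, a2, a3, a5⟩)

end Pool.Agent.MP_3ee8cb_gt.DZ
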