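import Pool.Agent.MP_3ee8cb_gt.DZ.Spec
import Pool.Agent.MP_3ee8cb_gt.DZJ.Shell

/-! The measure on directions. -/

namespace Pool.Agent.MP_3ee8cb_gt.DZ

open DN (Dim dm)

variable [Dim]

open MeasureTheory

theorem sMS : SMS where
  fin := inferInstanceAs (IsFiniteMeasure (DZJ.mSh dm))
  mass := DZJ.mSh_real
  mem := DZJ.mSh_mem
  ac := Measure.AbsolutelyContinuous.mk fun _ _ h =>
    compl_mem_ae_iff.1 (DZJ.mSh_ae (compl_mem_ae_iff.2 h))
  rot := DZJ.mSh_inv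
  iso := DZJ.mSh_iso
  den := fun _ hA h _ hu => DZJ.mSh_full hA h hu

end Pool.Agent.MP_3ee8cb_gt.DZ
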