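import Pool.Agent.MP_3ee8cb_gt.DZ.Spec
import Pool.Agent.MP_3ee8cb_gt.DZO.Onto
import Pool.Agent.MP_3ee8cb_gt.CZE.EndN
import Pool.Agent.MP_3ee8cb_gt.LV.All

/-! The zero map is onto; a map of feet is an isometry. -/

namespace Pool.Agent.MP_3ee8cb_gt.DZ

open DN (Dim dm)

variable [Dim]

open Set Filter Topology MeasureTheory DN
open CR (Met UT)
open scoped RealInnerProductSpace

/-- A continuous unit vector field with given frame components. -/
theorem sec {h : Met dm} {C : TB.Chr dm} {Ψ : ℝ → UT h → UT h} {m : MF} (ok : m.OK)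
    (lk : Lk h C Ψ m) {e : V} (he : ⟪e, e⟫ = 1) :
    ∃ s : V → UT h, Continuous s ∧ ∀ z, (s z).1 = (z, m.R z e) :=
  ⟨fun z => ⟨(z, m.R z e), (lk.orth z e e).trans he⟩,
    (continuous_id.prodMk (ok.cR.continuous.clm_apply continuous_const)).subtype_mk _,
    fun _ => rfl⟩

theorem sONTO : SONTO := by
  intro g h C C' Γ Λ _ _ _ _ Φ Ψ ρ F _ _ _ _ _ _ _ m lg ν f c nb hf hc
  obtain ⟨s, s1, s2⟩ := sec nb.yw.ok nb.lk (e := EuclideanSpace.single ⟨0, by unfold dm; omega⟩ 1)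
    (by simp)
  refine DZO.onto2 nb.yw.ok nb.yw.had (H := fun z => (F.symm (s z)).1.1) (C := c) hf
    (continuous_subtype_val.comp (F.symm.continuous.comp s1)).fst fun z => ?_
  have := hc (F.symm (s z))
  rwa [F.apply_symm_apply, s2] at this

theorem sEND2 : SEND2 := by
  intro g h C C' Γ Λ _ _ _ _ Φ Ψ ρ F qg qh cg ch d1 d2 cj m₀ m lg ν f ok jac lk nb hf ae
  have key : ∀ p : UT g, (F p).1.1 = f p.1.1 := fun p => by
    obtain ⟨s, s1, s2⟩ := sec ok lk (e := m₀.S p.1.1 p.1.2)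
      (by rw [← lk.orth p.1.1, ok.RS]; exact p.2)
    have e : (fun x => (F (s x)).1.1) = f :=
      ((continuous_subtype_val.comp (F.continuous.comp s1)).fst.ae_eq_iff_eq volume hf).1
        (ae.mono fun x hx => hx.2 _ (by rw [s2]))
    have e2 : s p.1.1 = p := Subtype.ext (by rw [s2, ok.RS])
    rw [← e]
    exact congrArg (fun q => (F q).1.1) e2.symm
  exact sEND0 g h C C' Γ Λ Φ Ψ ρ F qg qh cg ch d1 d2 cj m₀ m ok jac nb.yw.ok nb.yw.jac lk nb.lk
    (LV.hm_min qh one_pos (LV.all_hinge _ h Λ Ψ 1 qh.rp one_pos nb.cv))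
    fun p q e => by rw [key, key, e]

end Pool.Agent.MP_3ee8cb_gt.DZ
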