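import Pool.Agent.MP_3ee8cb_gt.DZ.Spec
import Pool.Agent.MP_3ee8cb_gt.DNWI.Base

/-! The support function of a family of Busemann functions. -/

namespace Pool.Agent.MP_3ee8cb_gt.DZ

open DN (Dim dm)

variable [Dim]

open Set Filter Topology Real DN
open scoped RealInnerProductSpace

noncomputable section

namespace H81

variable {m : MF} {lg : V × V → V} {dX : V → V → ℝ} {P : Type} [TopologicalSpace P] {A : Fam P}

/-- The maximum of the two point functions. -/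
def U (A : Fam P) (m : MF) (x : V) (q : V × V) : ℝ :=
  sSup ((fun p => gp m (A.β p) q) '' {p | A.pr p = x})

omit [Dim] in
theorem sh1 : 1 ≤ sinh 1 := (self_le_sinh_iff).2 zero_le_one

omit [Dim] in
theorem lg2 : log 2 ≤ 1 := by
  have := log_le_sub_one_of_pos (x := 2) two_pos
  linarith

theorem unit_ex : ∃ w : V, ‖w‖ = 1 :=
  ⟨EuclideanSpace.single (⟨0, by simp [dm]⟩ : Fin dm) 1, by simp⟩

omit [TopologicalSpace P] in
theorem fib (hg : BG lg A) (x : V) : ∃ p, A.pr p = x := by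
  obtain ⟨w, hw⟩ := unit_ex
  obtain ⟨p, hp, -⟩ := hg.onto x x w hw
  exact ⟨p, hp⟩

theorem mx (hb : BF m lg dX A) (hg : BG lg A) (x : V) (q : V × V) :
    ∃ p, A.pr p = x ∧ U A m x q = gp m (A.β p) q ∧
      ∀ p', A.pr p' = x → gp m (A.β p') q ≤ gp m (A.β p) q := by
  have hc : ∀ y : V, Continuous fun p : P => exp (A.β p y) := fun y =>
    continuous_exp.comp (hb.cont.comp (continuous_id.prodMk continuous_const))
  exact (hb.cpt x).exists_sSup_image_eq_and_ge (fib hg x) ((hc _).sub (hc _)).continuousOn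

theorem le_U (hb : BF m lg dX A) (hg : BG lg A) {x : V} {p : P} (hp : A.pr p = x) (q : V × V) :
    gp m (A.β p) q ≤ U A m x q := by
  obtain ⟨p', -, e, h⟩ := mx hb hg x q
  rw [e]
  exact h p hp

theorem low (hb : BF m lg dX A) (hg : BG lg A) (x : V) {q : V × V} (hq : ‖q.2‖ = 1) {M : ℝ}
    (hM : ∀ p, A.pr p = x → -M ≤ A.β p q.1) : exp (-M) ≤ U A m x q := by
  obtain ⟨p, hp, hn⟩ := hg.onto x q.1 q.2 hq
  refine le_trans ?_ (le_U hb hg hp q)
  have r := fun t => (hb.isb p).ray q.1 t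
  rw [hn] at r
  have e1 := r (-1)
  have e2 := r 1
  have e3 := exp_le_exp.2 (hM p hp)
  have e4 : gp m (A.β p) q = exp (A.β p q.1) * (2 * sinh 1) := by
    rw [gp, e1, e2, sinh_eq, sub_neg_eq_add, exp_add, sub_eq_add_neg _ (1 : ℝ), exp_add]
    ring
  rw [e4]
  nlinarith [sh1, exp_pos (A.β p q.1)]

theorem U_pos (hb : BF m lg dX A) (hg : BG lg A) (x : V) {q : V × V} (hq : ‖q.2‖ = 1) :
    0 < U A m x q := by
  obtain ⟨M, hM⟩ := (hb.cpt x).bddBelow_image (f := fun p => A.β p q.1)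
    (hb.cont.comp (continuous_id.prodMk continuous_const)).continuousOn
  exact (exp_pos _).trans_le (low hb hg x hq (M := -M) fun p hp => by
    simpa using hM ⟨p, hp, rfl⟩)

theorem step (hb : BF m lg dX A) (p : P) {q : V × V} (hq : ‖q.2‖ = 1) {t : ℝ} (ht : |t| = 1) :
    A.β p (m.Z t q).1 ≤ A.β p q.1 + 1 := by
  have h := (hb.isb p).lip (m.Z t q).1 (m.Z 0 q).1
  rw [DNWI.dist_geo hb.yw.ok hb.yw.jac hb.yw.had, hb.yw.ok.zero, zero_sub, abs_neg, ht, hq] at h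
  linarith

omit [TopologicalSpace P] in
theorem shift {p p' : P} {k : ℝ} (h : ∀ z, A.β p' z = A.β p z + k) (q : V × V) :
    gp m (A.β p') q = exp k * gp m (A.β p) q := by
  rw [gp, gp, h, h, exp_add, exp_add]
  ring

theorem half (hb : BF m lg dX A) (hg : BG lg A) (x x' : V) {q : V × V} (hq : ‖q.2‖ = 1) {d : ℝ}
    (hd : ∀ p p' k, A.pr p = x → A.pr p' = x' → (∀ z, A.β p' z = A.β p z + k) → |k| ≤ d) :
    log (U A m x q) - log (U A m x' q) ≤ d := by
  obtain ⟨p, hp, e, -⟩ := mx hb hg x q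
  obtain ⟨p', k, hp', hk⟩ := hb.mov p x'
  have h1 := le_U hb hg hp' q
  rw [shift hk, ← e] at h1
  have h0 := U_pos hb hg x hq
  have h2 := log_le_log (mul_pos (exp_pos k) h0) h1
  rw [log_mul (exp_pos k).ne' h0.ne', log_exp] at h2
  have := abs_le.1 (hd p p' k hp hp' hk)
  linarith [this.1]

theorem back (hb : BF m lg dX A) {p p' : P} {k : ℝ} (h : ∀ z, A.β p' z = A.β p z + k) :
    |k| ≤ dX (A.pr p') (A.pr p) := by
  have := hb.lip p' p (-k) fun z => by rw [h]; ring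
  rwa [abs_neg] at this

theorem lipx (hb : BF m lg dX A) (hg : BG lg A) (x x' z w : V) (hw : ‖w‖ = 1) :
    |A.u m x z w - A.u m x' z w| ≤ dX x x' := by
  have h1 := half hb hg x x' (q := (z, w)) hw (d := dX x x') fun p p' k hp hp' hk => by
    rw [← hp, ← hp']
    exact hb.lip p p' k hk
  have h2 := half hb hg x' x (q := (z, w)) hw (d := dX x x') fun p p' k hp hp' hk => by
    rw [← hp, ← hp']
    exact back hb hk
  refine abs_le.2 ⟨?_, h1⟩
  change -dX x x' ≤ log (U A m x (z, w)) - log (U A m x' (z, w))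
  linarith

theorem bd (hb : BF m lg dX A) (x₀ : V) (R : ℝ) : ∃ M : ℝ, ∀ p z, dX x₀ (A.pr p) ≤ 1 →
    ‖z‖ ≤ R → |A.β p z| ≤ M := by
  obtain ⟨M, hM⟩ := ((hb.cpt x₀).prod (isCompact_closedBall (0 : V) R)).exists_bound_of_continuousOn
    hb.cont.continuousOn
  refine ⟨M + 1, fun p z hp hz => ?_⟩
  obtain ⟨p', k, hp', hk⟩ := hb.mov p x₀
  have h1 := back hb hk
  rw [hp'] at h1
  have h2 := hM (p', z) ⟨hp', by simpa using hz⟩
  rw [Real.norm_eq_abs, hk] at h2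
  have h3 := abs_le.1 h2
  have h4 := abs_le.1 (h1.trans hp)
  exact abs_le.2 ⟨by linarith [h3.1, h4.2], by linarith [h3.2, h4.1]⟩

theorem lipZ (hy : YW m lg) (t R : ℝ) : ∃ K : ℝ, 0 ≤ K ∧ ∀ q q' : V × V, ‖q.1‖ ≤ R →
    ‖q.2‖ = 1 → ‖q'.1‖ ≤ R → ‖q'.2‖ = 1 → ‖lg ((m.Z t q).1, (m.Z t q').1)‖ ≤ K * dist q q' := by
  have hz : ContDiff ℝ 1 (m.Z t) := DNWI.Z_c1 hy.ok t
  have hc : ContDiff ℝ 1 fun r : (V × V) × V × V => lg ((m.Z t r.1).1, (m.Z t r.2).1) :=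
    hy.had.c1.comp ((hz.comp contDiff_fst).fst.prodMk (hz.comp contDiff_snd).fst)
  set B : Set (V × V) := Metric.closedBall 0 R ×ˢ Metric.closedBall 0 1
  have cB : IsCompact B := (isCompact_closedBall _ _).prod (isCompact_closedBall _ _)
  have vB : Convex ℝ B := (convex_closedBall _ _).prod (convex_closedBall _ _)
  obtain ⟨K, hK⟩ := hc.contDiffOn.exists_lipschitzOnWith one_ne_zero (vB.prod vB) (cB.prod cB)
  refine ⟨K, K.2, fun q q' h1 h2 h3 h4 => ?_⟩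
  have hq : q ∈ B := ⟨by simpa using h1, by simpa using h2.le⟩
  have hq' : q' ∈ B := ⟨by simpa using h3, by simpa using h4.le⟩
  have := hK.dist_le_mul (q, q) ⟨hq, hq⟩ (q, q') ⟨hq, hq'⟩
  simp only [DNWI.lg_self hy.ok hy.jac hy.had, dist_zero_left, Prod.dist_eq, dist_self] at this
  rw [max_eq_right (by positivity)] at this
  simpa only [Prod.dist_eq] using this

omit [Dim] in
theorem exp_lip {a b M d : ℝ} (ha : a ≤ M) (hd : 0 ≤ d) (h : a - b ≤ d) :
    exp a - exp b ≤ exp M * d := by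
  have h1 : exp b = exp a * exp (b - a) := by rw [← exp_add]; congr 1; ring
  have h2 := add_one_le_exp (b - a)
  have h3 := exp_le_exp.2 ha
  have h4 := exp_pos a
  rw [h1]
  nlinarith [mul_le_mul_of_nonneg_right h3 hd]

theorem lipz (hb : BF m lg dX A) (hg : BG lg A) (x₀ : V) (R : ℝ) : ∃ K, ∀ x, dX x₀ x ≤ 1 →
    LipschitzOnWith K (fun q : V × V => A.u m x q.1 q.2) {q | ‖q.1‖ ≤ R ∧ ‖q.2‖ = 1} := by
  obtain ⟨M, hM⟩ := bd hb x₀ R
  obtain ⟨K1, k1, h1⟩ := lipZ hb.yw (-1) R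
  obtain ⟨K2, k2, h2⟩ := lipZ hb.yw 1 R
  have hL : 0 ≤ exp M * (exp (M + 1) * (K1 + K2)) := by positivity
  refine ⟨⟨_, hL⟩, fun x hx => LipschitzOnWith.of_le_add_mul _ fun q hq q' hq' => ?_⟩
  obtain ⟨p, hp, e, -⟩ := mx hb hg x q
  have hx' : dX x₀ (A.pr p) ≤ 1 := hp ▸ hx
  have b1 := (abs_le.1 (hM p q.1 hx' hq.1)).2
  have b2 := (abs_le.1 (hM p q'.1 hx' hq'.1)).2
  have d0 : 0 ≤ dist q q' := dist_nonneg
  have a1 := exp_lip (M := M + 1) ((step hb p hq.2 (t := -1) (by simp)).trans (by linarith))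
    (mul_nonneg k1 d0) (((hb.isb p).lip _ _).trans (h1 q q' hq.1 hq.2 hq'.1 hq'.2))
  have a2 := exp_lip (M := M + 1) ((step hb p hq'.2 (t := 1) (by simp)).trans (by linarith))
    (mul_nonneg k2 dist_nonneg) (((hb.isb p).lip _ _).trans (h2 q' q hq'.1 hq'.2 hq.1 hq.2))
  rw [dist_comm q' q] at a2
  have a3 := le_U hb hg hp q'
  have a4 : U A m x q - U A m x q' ≤ exp (M + 1) * (K1 + K2) * dist q q' := by
    rw [e]
    rw [gp] at a3 ⊢
    nlinarith
  have a5 := low hb hg x hq'.2 (M := M) fun p' hp' =>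
    (abs_le.1 (hM p' q'.1 (hp' ▸ hx) hq'.1)).1
  have p1 := U_pos hb hg x hq.2
  have p2 := U_pos hb hg x hq'.2
  have a6 := log_le_sub_one_of_pos (div_pos p1 p2)
  rw [log_div p1.ne' p2.ne'] at a6
  have a7 : U A m x q / U A m x q' - 1 ≤ exp M * (exp (M + 1) * (K1 + K2)) * dist q q' := by
    rw [div_sub_one p2.ne', div_le_iff₀ p2]
    have a8 : 1 ≤ exp M * U A m x q' := by
      have := mul_le_mul_of_nonneg_left a5 (exp_pos M).le
      rwa [← exp_add, add_neg_cancel, exp_zero] at this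
    have a9 : 0 ≤ exp (M + 1) * (K1 + K2) * dist q q' := by positivity
    nlinarith [mul_le_mul_of_nonneg_left a8 a9]
  change log (U A m x q) ≤ log (U A m x q') + exp M * (exp (M + 1) * (K1 + K2)) * dist q q'
  linarith

theorem lowC (hb : BF m lg dX A) (hg : BG lg A) {x z : V} {R : ℝ} (hz : z ∈ A.C R x) (p : P)
    (hp : A.pr p = x) : -R ≤ A.β p z := by
  have h1 := hg.opp p z
  have h2 := hz (A.fl p) ((hb.flp p).1.trans hp)
  linarith

theorem tou (hb : BF m lg dX A) (hg : BG lg A) {k R : ℝ} (hk : 0 ≤ k) (hR : 0 ≤ R)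
    (hH : ∀ p, HH m k (A.β p) (A.ν p)) (x z w : V) (hz : z ∈ A.C R x) (hw : ‖w‖ = 1) :
    ∃ (Φ : V × V → ℝ) (D : V × V →L[ℝ] ℝ) (c : ℝ) (ζ : V),
    HasFDerivAt Φ D (z, w) ∧ Φ (z, w) = A.u m x z w ∧
    (∀ᶠ q in 𝓝 (z, w), ‖q.2‖ = 1 → Φ q ≤ A.u m x q.1 q.2) ∧ 1 ≤ c ∧ ⟪ζ, w⟫ = 0 ∧
    ‖ζ‖ ≤ exp (2 * R) * k ∧ ‖ζ‖ ^ 2 ≤ (exp (2 * R) * k) ^ 2 * (c - 1) ∧ (c = 1 → A.T m x z w) ∧
    ∀ ξ, m.ver (z, w) ξ = 0 → D ξ = -⟪c • w + ζ, m.hor (z, w) ξ⟫ := by
  obtain ⟨p, hp, e, hm⟩ := mx hb hg x (z, w)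
  obtain ⟨D, c, ζ, hD, hp0, hv, h1, h2⟩ := hH p z w hw
  have g0 := U_pos hb hg x (q := (z, w)) hw
  have gl := low hb hg x (q := (z, w)) hw (lowC hb hg hz)
  rw [e] at g0 gl
  set g := gp m (A.β p) (z, w) with hgd
  set f := exp (A.β p z) with hf
  set s := ⟪A.ν p z, w⟫ with hs
  set K := exp (2 * R) with hK
  have f0 : 0 < f := exp_pos _
  have K1 : 1 ≤ K := one_le_exp (by linarith)
  have s1 : |s| ≤ 1 := by
    have := abs_real_inner_le_norm (A.ν p z) w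
    rwa [(hb.isb p).unit, hw, mul_one] at this
  have s2 := abs_le.1 s1
  have fg : f ≤ K * g := by
    have a1 : f ≤ exp R := exp_le_exp.2 (hz p hp)
    have a2 : exp R = K * exp (-R) := by rw [hK, ← exp_add]; congr 1; ring
    nlinarith
  have c0 : 2 * f * (1 - s) ≤ c - g := by
    have : 0 ≤ f * (1 - s) := mul_nonneg f0.le (by linarith)
    nlinarith [sh1]
  have c1 : 0 ≤ f * (1 - s) := mul_nonneg f0.le (by linarith)
  have nz : ‖g⁻¹ • ζ‖ = ‖ζ‖ / g := by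
    rw [norm_smul, norm_inv, Real.norm_eq_abs, abs_of_pos g0, div_eq_inv_mul]
  refine ⟨fun q => log (gp m (A.β p) q), g⁻¹ • D, c / g, g⁻¹ • ζ, hD.log g0.ne', ?_, ?_, ?_, ?_,
    ?_, ?_, ?_, ?_⟩
  · exact congrArg log e.symm
  · filter_upwards [hD.continuousAt.eventually (lt_mem_nhds g0)] with q hq _
    exact log_le_log hq (le_U hb hg hp q)
  · rw [le_div_iff₀ g0]
    linarith
  · rw [inner_smul_left, hp0, mul_zero]
  · rw [nz, div_le_iff₀ g0]
    have a1 : ‖ζ‖ ≤ k * f := by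
      refine le_of_sq_le_sq ?_ (by positivity)
      nlinarith [mul_nonneg (sq_nonneg (k * f)) (sq_nonneg s)]
    nlinarith [mul_le_mul_of_nonneg_left fg hk]
  · rw [nz, div_pow, div_sub_one g0.ne', div_le_iff₀ (by positivity)]
    have a1 : (k * f) ^ 2 * (1 - s ^ 2) ≤ k ^ 2 * f * (c - g) := by
      have a2 : f * (1 - s ^ 2) ≤ c - g := by nlinarith
      have := mul_le_mul_of_nonneg_left a2 (by positivity : 0 ≤ k ^ 2 * f)
      nlinarith
    have a3 : f ≤ K ^ 2 * g := by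
      nlinarith [mul_le_mul_of_nonneg_right K1 (by positivity : 0 ≤ K * g)]
    have a4 := mul_le_mul_of_nonneg_left a3 (mul_nonneg (sq_nonneg k) (by linarith : 0 ≤ c - g))
    have a5 : (K * k) ^ 2 * ((c - g) / g) * g ^ 2 = k ^ 2 * (c - g) * (K ^ 2 * g) := by
      field_simp
    rw [a5]
    nlinarith
  · intro hc
    rw [div_eq_one_iff_eq g0.ne'] at hc
    refine ⟨p, hp, ?_, hm⟩
    have a1 : s = 1 := by
      by_contra hne
      have := mul_pos f0 (sub_pos.2 (lt_of_le_of_ne s2.2 hne))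
      linarith
    exact (inner_eq_one_iff_of_norm_eq_one ((hb.isb p).unit z) hw).1 a1
  · intro ξ hξ
    rw [_root_.smul_apply, hv ξ hξ, div_eq_inv_mul, mul_smul, ← smul_add,
      real_inner_smul_left, smul_eq_mul, mul_neg]

theorem ctr (hb : BF m lg dX A) (hg : BG lg A) (x : V) (R : ℝ) : ∃ y,
    (∀ w, ‖w‖ = 1 → |A.u m x y w| ≤ 2) ∧ ∀ z, ‖lg (y, z)‖ ≤ R → z ∈ A.C (R + 1) x := by
  obtain ⟨q, hq⟩ := fib hg x
  have hy : A.ft q ∈ A.C 1 x := fun p hp => (hg.two p q (hp.trans hq.symm)).trans lg2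
  refine ⟨A.ft q, fun w hw => ?_, fun z hz p hp => ?_⟩
  · have h1 := low hb hg x (q := (A.ft q, w)) hw (lowC hb hg hy)
    have h2 := log_le_log (exp_pos _) h1
    rw [log_exp] at h2
    obtain ⟨p, hp, e, -⟩ := mx hb hg x (A.ft q, w)
    have h3 := step hb p (q := (A.ft q, w)) hw (t := -1) (by simp)
    have h4 : U A m x (A.ft q, w) ≤ exp 2 := by
      have h5 := exp_le_exp.2 (h3.trans (by linarith [hy p hp] : A.β p (A.ft q) + 1 ≤ 2))
      rw [e, gp]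
      linarith [exp_pos (A.β p (m.Z 1 (A.ft q, w)).1)]
    have h6 := log_le_log ((exp_pos _).trans_le h1) h4
    rw [log_exp] at h6
    exact abs_le.2 ⟨le_trans (by norm_num) h2, h6⟩
  · have h1 := (hb.isb p).lip z (A.ft q)
    rw [DNWI.lg_symm hb.yw.jac hb.yw.had] at h1
    linarith [hy p hp]

end H81

theorem sSUP : SSUP := by
  refine ⟨exp (2 * (8 * dm + 3)), (exp_pos _).le, fun m lg dX P _ A hb hg k hk hH => ?_⟩
  refine ⟨H81.lipx hb hg, H81.lipz hb hg, H81.tou hb hg hk (by positivity) hH, ?_, ?_, ?_⟩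
  · exact fun x z h0 h1 t ht p hp => (hb.b1 p).sub z _ (h0 p hp) (h1 p hp) t ht
  · intro x x' hx z hz p hp
    obtain ⟨p', c, hp', hc⟩ := hb.mov p x'
    have h1 := hb.lip p p' c hc
    rw [hp, hp'] at h1
    have h2 := hz p' hp'
    rw [hc] at h2
    linarith [(abs_le.1 (h1.trans hx)).1]
  · intro x
    obtain ⟨y, h1, h2⟩ := H81.ctr hb hg x (8 * dm + 1)
    refine ⟨y, h1, fun z hz p hp => (h2 z hz p hp).trans_eq (by ring)⟩

end

end Pool.Agent.MP_3ee8cb_gt.DZ
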