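import Pool.Agent.MP_3ee8cb_gt.DZZ.Zero
import Pool.Agent.MP_3ee8cb_gt.DZ.Spec

/-! The zero of the averaged field: the statements of the block. -/

namespace Pool.Agent.MP_3ee8cb_gt.DZ

open Set Filter Topology MeasureTheory DN DZZ
open scoped RealInnerProductSpace

theorem sDINI : SDINI := by
  intro h a b k hab hc
  have right : ∀ (h : ℝ → ℝ) (a b k : ℝ), a ≤ b → ContinuousOn h (Icc a b) →
      (∀ t ∈ Icc a b, ∃ d, Tou h t d ∧ d ≤ k) → h b - h a ≤ k * (b - a) := fun h a b k hab hc H => by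
    have := anti_below (f := fun t => h t - k * t) hab
      (hc.sub (continuousOn_const.mul continuousOn_id)) fun t ht => by
        obtain ⟨d, ⟨Φ, h1, h2, h3⟩, h4⟩ := H t ht
        exact ⟨_, _, h1.fun_sub ((hasDerivAt_id t).const_mul k), by linarith, by simp [h2],
          h3.mono fun s hs => sub_le_sub_right hs _⟩
    linarith
  refine ⟨fun H => ?_, right h a b k hab hc⟩
  have := right (fun t => h (-t)) (-b) (-a) (-k) (neg_le_neg hab)
    (hc.comp continuous_neg.continuousOn fun s hs => ⟨by linarith [hs.2], by linarith [hs.1]⟩)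
    fun t ht => by
      obtain ⟨d, ⟨Φ, h1, h2, h3⟩, h4⟩ := H (-t) ⟨by linarith [ht.2], by linarith [ht.1]⟩
      exact ⟨_, ⟨_, h1.comp t (hasDerivAt_neg t), h2, (continuous_neg.tendsto t).eventually h3⟩,
        by linarith⟩
  simp only [neg_neg] at this
  linarith

variable [Dim]

theorem MS.rot' (h : MS) : Rot mS :=
  ⟨h.fin, h.rot, h.mem.mono fun w hw k => absurd hw.1 (by simp [k]), h.mass⟩

variable {m : MF} {lg : V × V → V} {dX : V → V → ℝ} {ε : ℝ} {u : V → V → V → ℝ}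
  {C C₀ : V → Set V} {Q : V → V → V → Prop}

theorem Sup.cont (h : Sup m lg dX ε u C C₀ Q) (h0 : ∀ x, dX x x = 0) (x : V) :
    ContinuousOn (fun q : V × V => u x q.1 q.2) {q | ‖q.2‖ = 1} := fun q hq => by
  obtain ⟨K, hK⟩ := h.lipz x (‖q.1‖ + 1)
  refine ((hK x (by simp [h0])).continuousOn q ⟨by linarith, hq⟩).mono_of_mem_nhdsWithin ?_
  exact inter_mem (nhdsWithin_le_nhds (continuous_fst.norm.continuousAt.eventually
    (Iic_mem_nhds (lt_add_one _)))) self_mem_nhdsWithin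

theorem Sup.tch (h : Sup m lg dX ε u C C₀ Q) {x z w : V} (hz : z ∈ C x) (hw : ‖w‖ = 1) :
    Tch m (fun q : V × V => u x q.1 q.2) ε (z, w) := by
  obtain ⟨Φ, D, c, ζ, a1, a2, a3, a4, -, a5, -, -, a6⟩ := h.tou x z w hz hw
  exact ⟨Φ, D, c, ζ, a1, a2, a3, a4, a5, a6⟩

theorem sZERO : SZERO := by
  intro _ m₀ m lg dX ε u C C₀ Q hM hX hY _ hε h
  have rotS := hM.rot'
  have c := h.cont hX.self
  have n := fun x => h.nest x x (by simp [hX.self])
  have d0 : (0 : ℝ) ≤ dm := by positivity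
  have ex : ∀ x, ∃ z, z ∈ C₀ x ∧ VV u x z = 0 := fun x => by
    obtain ⟨y, h1, h2⟩ := h.ctr x
    obtain ⟨z, k1, k2⟩ := zero (k := 0) (δ := 2) (ρ := 8 * dm + 1) hY.ok hY.jac hY.had rotS (c x) hε
      (by simpa using h1) (by linarith) (by linarith) fun z w hz hw => h.tch (n x (h2 z hz)) hw
    exact ⟨z, h2 z k1, k2⟩
  choose f f1 f2 using ex
  have st : ∀ x x' z z', z ∈ C x → z' ∈ C x → VV u x z = 0 → VV u x' z' = 0 →
      ‖lg (z, z')‖ ≤ 2 * dm * dX x x' := fun x x' z z' a1 a2 a3 a4 =>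
    stab hY.ok hY.jac hY.had rotS (c x) (c x') hε a3 a4 (fun w hw => h.lipx x x' z' w hw)
      fun t ht w hw => h.tch (h.cvx x (z, lg (z, z')) a1 ((hY.had.ex z z').symm ▸ a2) t ht) hw
  refine ⟨f, f1, f2, fun x z a1 a2 => ?_, fun x x' k =>
    st x x' _ _ (n x (f1 x)) (h.nest x x' k (f1 x')) (f2 x) (f2 x')⟩
  have := st x x _ _ a1 (n x (f1 x)) a2 (f2 x)
  rw [hX.self, mul_zero, norm_le_zero_iff, ← DNWI.lg_self hY.ok hY.jac hY.had z] at this
  rw [← hY.had.ex z (f x), this, hY.had.ex]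

end Pool.Agent.MP_3ee8cb_gt.DZ
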