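import Pool.Agent.MP_3ee8cb_gt.DZ.Top
import Pool.Agent.MP_3ee8cb_gt.DZ.RB1
import Pool.Agent.MP_3ee8cb_gt.DZ.RBF
import Pool.Agent.MP_3ee8cb_gt.DZ.RBG
import Pool.Agent.MP_3ee8cb_gt.DZ.REND1
import Pool.Agent.MP_3ee8cb_gt.DZ.REQV
import Pool.Agent.MP_3ee8cb_gt.DZ.RExa
import Pool.Agent.MP_3ee8cb_gt.DZ.RGR
import Pool.Agent.MP_3ee8cb_gt.DZ.RH
import Pool.Agent.MP_3ee8cb_gt.DZ.RJA
import Pool.Agent.MP_3ee8cb_gt.DZ.RJB
import Pool.Agent.MP_3ee8cb_gt.DZ.RMOV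
import Pool.Agent.MP_3ee8cb_gt.DZ.RMS
import Pool.Agent.MP_3ee8cb_gt.DZ.RONTO
import Pool.Agent.MP_3ee8cb_gt.DZ.RSUP
import Pool.Agent.MP_3ee8cb_gt.DZ.RVOL
import Pool.Agent.MP_3ee8cb_gt.DZ.RZERO
import Pool.Agent.MP_3ee8cb_gt.DZZ.FlB
import Pool.Agent.MP_3ee8cb_gt.DNFL.All
import Pool.Agent.MP_3ee8cb_gt.SLN.Z

/-! Rigidity of pinched metrics among all metrics. -/

namespace Pool.Agent.MP_3ee8cb_gt.DZ

open DN (Dim dm)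

variable [Dim]

open Filter Topology DN

theorem xw : SXW := by
  intro g C Γ _ _ Φ q _ m ok lk
  refine ⟨ok, q.rp.db.refl, q.rp.db.nonneg, fun x ε hε => ?_⟩
  obtain ⟨r, hr, h⟩ := q.rp.db.upp x ε hε
  have t : ∀ f : V × V → V, Continuous f → f (x, x) = x → ∀ᶠ p in 𝓝 (x, x), ‖f p - x‖ ≤ r :=
    fun f hf e => ((hf.sub continuous_const).norm.tendsto (x, x)).eventually_le_const
      (by simpa [e] using hr)
  filter_upwards [t _ continuous_fst rfl, t _ continuous_snd rfl] with p h1 h2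
  refine (q.rp.db.le_seg _ _).trans ((h _ _ h1 h2).trans_eq ?_)
  rw [← Real.sqrt_sq (norm_nonneg (m.S x _)), ← real_inner_self_eq_norm_sq, ← lk.orth x, ok.RS]

theorem main1 : ∃ δ, 0 < δ ∧ SLN.MainZ δ :=
  main1_of sJAC sFRM DNFL.had sACT DNFL.flp sMS sDINI sB1 sH sBG sSUP sZERO sFL45 sJA sJB sEND1 xw
    sASY sBC sEXA sMOV sLIP sGR sBF sEQV sONTO RVOL.veq RVOL.area sVOL sEND2

end Pool.Agent.MP_3ee8cb_gt.DZ
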