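import Pool.Agent.MP_3ee8cb_gt.DZE.End2

/-! The zero depends on the point in a locally Lipschitz way. -/

namespace Pool.Agent.MP_3ee8cb_gt.DZ

open DN (Dim dm)

variable [Dim]

open Set Filter Topology DN

theorem locLip {m : MF} {lg : V × V → V} (ok : m.OK) (hj : m.Jac) (hl : m.Had lg) {f : V → V}
    (h : ∀ x, ∃ K : ℝ, ∀ᶠ q : V × V in 𝓝 (x, x), ‖lg (f q.1, f q.2)‖ ≤ K * ‖q.2 - q.1‖) :
    LocallyLipschitz f := fun x => by
  obtain ⟨K, hK⟩ := h x
  have cE : ContDiff ℝ 1 fun z : V × V => (m.Z 1 z).1 :=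
    (ok.cZ.comp (contDiff_const.prodMk contDiff_id)).fst
  obtain ⟨L, N, hN, hL⟩ := (cE.contDiffAt (x := (f x, 0))).exists_lipschitzOnWith
  have t0 : Tendsto (fun q : V × V => lg (f q.1, f q.2)) (𝓝 (x, x)) (𝓝 0) :=
    squeeze_zero_norm' hK (Continuous.tendsto' (by fun_prop) _ _ (by simp))
  have t1 : Tendsto f (𝓝 x) (𝓝 (f x)) := by
    have := (cE.continuous.tendsto _).comp (tendsto_const_nhds (x := f x).prodMk_nhds
      (t0.comp (Continuous.prodMk_right x).continuousAt))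
    rw [En0.ex0 ok hj] at this
    exact this.congr fun y => hl.ex _ _
  have t2 := t1.comp (continuous_fst.tendsto (x, x))
  obtain ⟨U, hU, U', hU', hs⟩ := mem_nhds_prod_iff.1 (hK.and
    (((t2.prodMk_nhds t0).eventually hN).and ((t2.prodMk_nhds tendsto_const_nhds).eventually hN)))
  refine ⟨(L * K).toNNReal, U ∩ U', inter_mem hU hU', .of_dist_le_mul fun a ha b hb => ?_⟩
  obtain ⟨h1, h2, h3⟩ := hs (mk_mem_prod hb.1 ha.2)
  have := hL.dist_le_mul _ h2 _ h3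
  simp only [Function.comp, hl.ex, En0.ex0 ok hj, Prod.dist_eq, dist_self, dist_zero_right,
    max_eq_right (norm_nonneg _)] at this
  rw [dist_eq_norm a]
  exact (this.trans (mul_le_mul_of_nonneg_left h1 L.2)).trans ((mul_assoc _ _ _).symm.trans_le
    (mul_le_mul_of_nonneg_right (Real.le_coe_toNNReal _) (norm_nonneg _)))

theorem sFL : SFL := by
  intro m₀ m lg dX ε u C C₀ Q _ xw yw _ _ _ f z
  refine locLip yw.ok yw.jac yw.had fun x => ⟨2 * dm * (2 * ‖m₀.S x‖), ?_⟩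
  have t : ∀ᶠ q : V × V in 𝓝 (x, x), 2 * ‖m₀.S x‖ * ‖q.2 - q.1‖ ≤ 1 :=
    (Continuous.tendsto' (y := 0) (by fun_prop) _ (by simp)).eventually_le_const one_pos
  filter_upwards [t, xw.upp x 1 one_pos] with q h1 h2
  have h3 : dX q.1 q.2 ≤ 2 * ‖m₀.S x‖ * ‖q.2 - q.1‖ := by
    linarith [(m₀.S x).le_opNorm (q.2 - q.1)]
  rw [mul_assoc]
  exact (z.lip _ _ (h3.trans h1)).trans (mul_le_mul_of_nonneg_left h3 (by positivity))

end Pool.Agent.MP_3ee8cb_gt.DZ
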