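import Pool.Agent.MP_3ee8cb_gt.DZ.Spec
import Pool.Agent.MP_3ee8cb_gt.DZV.Area

/-! The area inequality with a weight. -/

namespace Pool.Agent.MP_3ee8cb_gt.DZ

open MeasureTheory DN

variable [Dim]

theorem sAREA : SAREA := fun _ _ _ hf hr hD =>
  (DZV.area_w volume hf hD hr).trans_eq (lintegral_congr fun _ => mul_comm _ _)

end Pool.Agent.MP_3ee8cb_gt.DZ
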