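import Pool.Agent.MP_3ee8cb_gt.DZ.Spec
import Pool.Agent.MP_3ee8cb_gt.DNC0.RBs

/-! The support function is Lipschitz in the point and in the direction. -/

namespace Pool.Agent.MP_3ee8cb_gt.DZ

open DN (Dim dm)

variable [Dim]

open Set Filter Topology Real DN DNC0 Metric

namespace RLZ

omit [Dim] in
theorem ex_lip {a b M : ℝ} (ha : a ≤ M) : exp a - exp b ≤ exp M * |a - b| := by
  have h1 := add_one_le_exp (b - a)
  have h2 : exp b = exp a * exp (b - a) := by rw [← exp_add, add_sub_cancel]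
  have h3 := exp_le_exp.2 ha
  have h4 := exp_pos a
  have h5 := le_abs_self (a - b)
  have h6 := abs_nonneg (a - b)
  nlinarith [mul_le_mul_of_nonneg_left h1 h4.le, mul_le_mul_of_nonneg_left h5 h4.le,
    mul_le_mul_of_nonneg_right h3 h6]

omit [Dim] in
theorem lg_lip {a b c d : ℝ} (hc : 0 < c) (ha : c ≤ a) (hb : c ≤ b) (hd : 0 ≤ d)
    (h : a ≤ b + d) : log a ≤ log b + c⁻¹ * d := by
  have b0 : 0 < b := hc.trans_le hb
  have h1 := log_le_sub_one_of_pos (div_pos (hc.trans_le ha) b0)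
  rw [log_div (hc.trans_le ha).ne' b0.ne'] at h1
  have h2 : a / b - 1 ≤ b⁻¹ * d := by
    rw [div_sub_one b0.ne', div_eq_inv_mul]
    exact mul_le_mul_of_nonneg_left (by linarith) (inv_pos.2 b0).le
  have h3 := mul_le_mul_of_nonneg_right (inv_anti₀ hc hb) hd
  linarith

variable {m : MF} {lg : V × V → V} {dX : V → V → ℝ} {P : Type} [TopologicalSpace P] {A : Fam P}

/-- A uniform bound on balls. -/
theorem bdd (h : BF m lg dX A) (x₀ : V) (R : ℝ) : ∃ M, ∀ p, dX x₀ (A.pr p) ≤ 1 →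
    ∀ y, ‖y‖ ≤ R → |A.β p y| ≤ M := by
  obtain ⟨M, hM⟩ := ((h.cpt x₀).prod (isCompact_closedBall (0 : V) R)).exists_bound_of_continuousOn
    h.cont.continuousOn
  refine ⟨M + 1, fun p hp y hy => ?_⟩
  obtain ⟨p', k, e, hk⟩ := h.mov p x₀
  have h1 := h.lip p' p (-k) fun z => by rw [hk]; ring
  have h2 := hM (p', y) ⟨e, by simpa using hy⟩
  rw [e, abs_neg] at h1
  rw [Real.norm_eq_abs, hk] at h2
  have := abs_sub (A.β p y + k) k
  rw [add_sub_cancel_right] at this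
  linarith

/-- The feet at a fixed time. -/
theorem foot (h : BF m lg dX A) (t R : ℝ) : ∃ B K, 0 ≤ K ∧ ∀ q : V × V, ‖q‖ ≤ R →
    ‖(m.Z t q).1‖ ≤ B ∧ ∀ p, ∀ q' : V × V, ‖q'‖ ≤ R →
      |A.β p (m.Z t q).1 - A.β p (m.Z t q').1| ≤ K * dist q q' := by
  have c := (RBs.c1 h.yw.ok t).fst
  obtain ⟨B, -, hB⟩ := H38.bdd_ball c.continuous R
  obtain ⟨K, K0, hK⟩ := H38.lip_ball c R
  obtain ⟨L, L0, hL⟩ := H38.lip_ball h.yw.had.c1 B
  have l : ∀ p, ∀ y y' : V, ‖y‖ ≤ B → ‖y'‖ ≤ B → A.β p y - A.β p y' ≤ L * ‖y' - y‖ :=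
    fun p y y' a b => by
      have := hL (y, y) (y, y') (by simpa using a) (by simpa using ⟨a, b⟩)
      rw [RBs.self h.yw.ok h.yw.jac h.yw.had, sub_zero] at this
      refine ((h.isb p).lip y y').trans (this.trans (le_of_eq ?_))
      simp
  refine ⟨B, L * K, mul_nonneg L0 K0, fun q a => ⟨hB q a, fun p q' b => ?_⟩⟩
  have k := mul_le_mul_of_nonneg_left (hK q' q b a) L0
  have l1 := l p _ _ (hB q a) (hB q' b)
  have l2 := l p _ _ (hB q' b) (hB q a)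
  rw [norm_sub_rev] at l1
  rw [dist_eq_norm, mul_assoc, abs_le]
  constructor <;> linarith

end RLZ

open RLZ

theorem lipz_of : OnB fun m lg dX _ _ A => BG lg A → ∀ (x₀ : V) (R : ℝ), ∃ K, ∀ x,
    dX x₀ x ≤ 1 →
      LipschitzOnWith K (fun q : V × V => A.u m x q.1 q.2) {q | ‖q.1‖ ≤ R ∧ ‖q.2‖ = 1} := by
  intro m lg dX P _ A h g x₀ R
  obtain ⟨B, K, K0, hK⟩ := foot h (-1) (max R 1)
  obtain ⟨B', K', K0', hK'⟩ := foot h 1 (max R 1)
  obtain ⟨M, hM⟩ := bdd h x₀ (max R (max B B'))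
  have c0 : 0 < exp (-M) * (exp 1 - exp (-1)) :=
    mul_pos (exp_pos _) (sub_pos.2 (exp_lt_exp.2 (by norm_num)))
  refine ⟨_, fun x hx => LipschitzOnWith.of_le_add_mul'
    ((exp (-M) * (exp 1 - exp (-1)))⁻¹ * (exp M * (K + K'))) fun q hq q' hq' => ?_⟩
  have n : ∀ q : V × V, ‖q.1‖ ≤ R ∧ ‖q.2‖ = 1 → ‖q‖ ≤ max R 1 := fun q a =>
    max_le_max a.1 a.2.le
  have b1 : ∀ p, A.pr p = x → ∀ q : V × V, ‖q‖ ≤ max R 1 → A.β p (m.Z (-1) q).1 ≤ M ∧
      A.β p (m.Z 1 q).1 ≤ M := fun p e q a =>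
    ⟨(le_abs_self _).trans (hM p (e ▸ hx) _ ((hK q a).1.trans
      ((le_max_left _ _).trans (le_max_right _ _)))),
    (le_abs_self _).trans (hM p (e ▸ hx) _ ((hK' q a).1.trans
      ((le_max_right _ _).trans (le_max_right _ _))))⟩
  have bd : ∀ q : V × V, ‖q‖ ≤ max R 1 →
      BddAbove ((fun p => gp m (A.β p) (q.1, q.2)) '' {p | A.pr p = x}) := fun q a =>
    ⟨exp M, by
      rintro _ ⟨p, e, rfl⟩
      have := exp_le_exp.2 (b1 p e q a).1
      have := exp_pos (A.β p (m.Z 1 q).1)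
      show exp (A.β p (m.Z (-1) q).1) - exp (A.β p (m.Z 1 q).1) ≤ _
      linarith⟩
  have lo : ∀ q : V × V, ‖q.1‖ ≤ R ∧ ‖q.2‖ = 1 → exp (-M) * (exp 1 - exp (-1)) ≤
      sSup ((fun p => gp m (A.β p) (q.1, q.2)) '' {p | A.pr p = x}) := fun q a => by
    obtain ⟨p, e, hν⟩ := g.onto x q.1 q.2 a.2
    refine le_trans ?_ (le_csSup (bd q (n q a)) ⟨p, e, rfl⟩)
    have r := (h.isb p).ray q.1
    rw [hν] at r
    simp only [gp, r]
    have := exp_le_exp.2 (neg_le_of_abs_le (hM p (e ▸ hx) q.1 (a.1.trans (le_max_left _ _))))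
    rw [sub_neg_eq_add, exp_add, sub_eq_add_neg (A.β p q.1), exp_add, ← mul_sub]
    exact mul_le_mul_of_nonneg_right this (sub_pos.2 (exp_lt_exp.2 (by norm_num))).le
  rw [mul_assoc]
  refine lg_lip c0 (lo q hq) (lo q' hq') (by positivity) ?_
  obtain ⟨p₀, e₀, -⟩ := g.onto x q.1 q.2 hq.2
  refine csSup_le ⟨_, p₀, e₀, rfl⟩ ?_
  rintro _ ⟨p, e, rfl⟩
  refine le_trans ?_ (add_le_add_left (le_csSup (bd q' (n q' hq')) ⟨p, e, rfl⟩) _)
  have i1 := ex_lip (b := A.β p (m.Z (-1) q').1) (b1 p e q (n q hq)).1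
  have i2 := ex_lip (b := A.β p (m.Z 1 q).1) (b1 p e q' (n q' hq')).2
  have j1 := mul_le_mul_of_nonneg_left ((hK q (n q hq)).2 p q' (n q' hq')) (exp_pos M).le
  have j2 := mul_le_mul_of_nonneg_left ((hK' q (n q hq)).2 p q' (n q' hq')) (exp_pos M).le
  rw [abs_sub_comm] at i2
  show exp (A.β p (m.Z (-1) q).1) - exp (A.β p (m.Z 1 q).1) ≤
    exp (A.β p (m.Z (-1) q').1) - exp (A.β p (m.Z 1 q').1) + _
  nlinarith

end Pool.Agent.MP_3ee8cb_gt.DZ
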