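import Pool.Agent.MP_3ee8cb_gt.DZ.Spec
import Pool.Agent.MP_3ee8cb_gt.DZM.Base
import Pool.Agent.MP_3ee8cb_gt.LV.All

/-! Moving the base point of a Busemann function along the conjugacy. -/

namespace Pool.Agent.MP_3ee8cb_gt.DZ

open DN (Dim dm)

namespace RMOV

open CR LV

/-- The metric facts on a conjugacy with a negatively curved flow. -/
theorem kit {n : ℕ} {g h : Met n} {Γ Λ : Type} [Group Γ] [Group Λ] [MulAction Γ (E n)]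
    [MulAction Λ (E n)] {Φ : ℝ → UT g → UT g} {Ψ : ℝ → UT h → UT h} {ρ : Γ ≃* Λ}
    {F : UT g ≃ₜ UT h} (qg : QP g Γ Φ) (qh : QP h Λ Ψ) (cj : CJ g h Φ Ψ ρ F)
    (hc : TB.CurvLe h 1) : MinP h Ψ ∧ I2P h Ψ 1 ∧ ThP h Ψ 1 ∧ BP h Ψ ∧ LbP h Ψ 1 ∧ UQ g h Ψ F ∧
      MinP g Φ ∧ TP g h Φ Ψ F := by
  have hi := all_hinge n h Λ Ψ 1 qh.rp one_pos hc
  obtain ⟨mh, i2⟩ := hm n h Λ Ψ qh 1 one_pos hi
  have t := th n h Λ Ψ qh 1 one_pos mh i2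
  have bh := bp n h Λ Ψ qh mh
  have u := uq n g h Γ Λ Φ Ψ ρ F qg qh cj (eqv n h Λ Ψ qh mh)
  obtain ⟨mg, tp⟩ := min2 n g h Γ Λ Φ Ψ ρ F qg qh cj u (morse n h Λ Ψ qh 1 one_pos mh t)
  exact ⟨mh, i2, t, bh, lb n h Λ Ψ qh 1 one_pos hi bh, u, mg, tp⟩

end RMOV

variable [Dim]

theorem sMOV : SMOV := by
  intro g h C C' Γ Λ _ _ _ _ Φ Ψ ρ F qg qh _ _ _ _ cj m lg ν nb p x
  obtain ⟨-, -, t, bh, l, u, mg, -⟩ := RMOV.kit qg qh cj nb.cv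
  exact DZM.mov1 qg qh mg bh t l u cj.flow p x

theorem sLIP : SLIP := by
  intro g h C C' Γ Λ _ _ _ _ Φ Ψ ρ F qg qh _ _ _ _ cj m lg ν nb p p' k hk
  obtain ⟨-, -, t, bh, l, -, mg, tp⟩ := RMOV.kit qg qh cj nb.cv
  exact DZM.mov2 qg qh mg bh t l tp hk

end Pool.Agent.MP_3ee8cb_gt.DZ
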