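import Pool.Agent.MP_3ee8cb_gt.DZ.Spec
import Pool.Agent.MP_3ee8cb_gt.DZS.Fin

/-! Scaling. -/

namespace Pool.Agent.MP_3ee8cb_gt.DZ

open DN (Dim)

theorem sSCL [Dim] : SSCL := fun _ A => DZS.scale A

end Pool.Agent.MP_3ee8cb_gt.DZ
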