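import Pool.Agent.MP_3ee8cb_gt.DZ.Spec
import Pool.Agent.MP_3ee8cb_gt.DN.Top

/-! Rigidity of pinched metrics among all metrics from the blocks. -/

namespace Pool.Agent.MP_3ee8cb_gt.DZ

open DN (Dim dm)

variable [Dim]

open Set Filter Topology MeasureTheory Real DN
open CR (Met UT dd ng)
open scoped RealInnerProductSpace

theorem main1_of (jac : SJAC) (frm : SFRM) (had : SHAD) (act : SACT) (flp : SFLP) (ms : SMS)
    (dini : SDINI) (b1 : SB1) (hh : SH) (bg : SBG) (sup : SSUP) (zero : SZERO) (fl : SFL)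
    (ja : SJA) (jb : SJB) (end1 : SEND1) (xw : SXW) (asy : SASY) (bc : SBC) (exa : SEXA)
    (mov : SMOV) (lip : SLIP) (gr : SGR) (bf : SBF) (eqv : SEQV) (onto : SONTO) (veq : SVEQ)
    (area : SAREA) (vol : SVOL) (end2 : SEND2) : ∃ δ, 0 < δ ∧ Main1 δ := by
  obtain ⟨K, K0, hh⟩ := hh
  obtain ⟨K', K0', sup⟩ := sup
  have n0 : (0 : ℝ) ≤ dm := Nat.cast_nonneg _
  have p0 : 0 < 1 + 2 * dm * (K' * K) := by positivity
  refine ⟨(1 + 2 * dm * (K' * K))⁻¹, inv_pos.2 p0, ?_⟩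
  set δ := (1 + 2 * dm * (K' * K))⁻¹ with hδ
  have δ0 : 0 ≤ δ := (inv_pos.2 p0).le
  have δe : δ * (1 + 2 * dm * (K' * K)) = 1 := inv_mul_cancel₀ p0.ne'
  have q0 : 0 ≤ δ * (2 * dm * (K' * K)) := by positivity
  have δ1 : δ ≤ 1 := by nlinarith
  have ε0 : 0 ≤ K' * (K * δ) := by positivity
  have ε1 : 2 * dm * (K' * (K * δ)) ≤ 1 := by nlinarith
  intro g h C C' Γ Λ _ _ _ _ Φ Ψ ρ F₀ qg qh cg ch dΓ dΛ cj₀ kh
  have kh' : TB.CurvLe h 1 := ⟨C', ch, fun x u v => by simpa using (kh x u v).2⟩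
  obtain ⟨m₀, o₀, l₀⟩ := frm g C Γ Φ qg cg
  obtain ⟨m, o, l⟩ := frm h C' Λ Ψ qh ch
  have j := jac m o
  obtain ⟨O, aO⟩ := act h C' Λ Ψ qh ch m o l dΛ
  obtain ⟨lg, hl, hd⟩ := had h C' Λ Ψ qh ch m 1 o j l one_pos kh'
  obtain ⟨-, s, F, -, cj, fp⟩ := flp g h C C' Γ Λ Φ Ψ ρ F₀ qg qh cg ch dΓ dΛ cj₀ 1 one_pos kh'
  have cs : ∀ u v : V, 0 ≤ ‖u‖ ^ 2 * ‖v‖ ^ 2 - ⟪u, v⟫ ^ 2 := fun u v => by
    have := real_inner_mul_inner_self_le u v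
    rw [real_inner_self_eq_norm_sq, real_inner_self_eq_norm_sq] at this
    nlinarith
  have u1 : m.Up 1 := fun y u v => by
    have := (kh y (m.R y u) (m.R y v)).2
    rw [(l.sec o y u v).1, ← (l.sec o y u v).2]
    linarith
  have d1 : m.Dn (1 + δ) := fun y u v => by
    have := (kh y (m.R y u) (m.R y v)).1
    rw [(l.sec o y u v).1, ← (l.sec o y u v).2]
    linarith
  have u0 : m.Up 0 := fun y u v =>
    le_trans (mul_le_mul_of_nonneg_right zero_le_one (cs u v)) (u1 y u v)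
  have yw : YW m lg := ⟨o, j, hl, u0⟩
  have as := asy h C' Λ Ψ qh ch kh'
  obtain ⟨ν, hν⟩ := exa h C' Λ Ψ qh ch m lg kh' as yw l hd
  have nb : NB h C' Ψ m lg ν := ⟨kh', yw, l, hd, as, bc h C' Λ Ψ qh ch kh', fun w => (hν w).1,
    fun w => b1 m lg _ _ yw (hν w).1, fun w => (hν w).2⟩
  have B := bf mov lip gr g h C C' Γ Λ Φ Ψ ρ F qg qh cg ch dΓ dΛ cj m lg ν nb fp
  have G := bg m lg _ _ _ B
  have X := xw g C Γ Φ qg cg m₀ o₀ l₀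
  have S := sup m lg _ _ _ B G (K * δ) (by positivity)
    fun p => hh δ m lg _ _ δ0 δ1 yw u1 d1 (B.isb p) (B.b1 p)
  obtain ⟨f, Z⟩ := zero dini m₀ m lg _ _ _ _ _ _ ms X yw ε0 ε1 S
  have L := fl m₀ m lg _ _ _ _ _ _ ms X yw ε0 ε1 S f Z
  have J := ja m₀ m lg _ _ _ _ _ _ ms X yw ε0 ε1 S f Z L
  have E := eqv g h C C' Γ Λ Φ Ψ ρ F qg qh cg ch dΓ dΛ cj m lg ν O _ _ f ms nb aO
    (by linarith) Z
  have Su := onto g h C C' Γ Λ Φ Ψ ρ F qg qh cg ch dΓ dΛ cj m lg ν f _ nb L.continuous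
    fun p => G.near p _ _ (Z.mem _)
  have J' := J.mono fun x hx => jb _ _ _ ms ε0 ε1 hx.2
  have W := vol veq area g h C C' Γ Λ Φ Ψ ρ F qg qh cg ch dΓ dΛ cj m₀ m f kh' o₀ o l₀ l L Su E
    (J'.mono fun x hx => hx.1)
  refine end2 g h C C' Γ Λ Φ Ψ ρ F qg qh cg ch dΓ dΛ cj m₀ m lg ν f o₀ (jac m₀ o₀) l₀ nb
    L.continuous ?_
  filter_upwards [J, J', W] with x h1 h2 h3
  exact ⟨h1.1, end1 dini m lg _ _ _ B ms G x (f x) (h2.2 h3)⟩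

end Pool.Agent.MP_3ee8cb_gt.DZ
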